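import Pool.Agent.Helper51.BN.Defs

/-! # Project BN, module BN-6a: choice of the scale -/

set_option autoImplicit false

namespace Pool.Agent.Helper51.BN

open Finset

private theorem h55_shift {w : ℕ} (hw : 0 < w) (a : ℕ → ℝ) (n : ℕ) :
    ∑ j ∈ Icc 1 n, a ((j + w - 1) / w - 1) = ∑ i ∈ range n, a (i / w) := by
  rw [Finset.range_eq_Ico, show Icc 1 n = Ico (0 + 1) (n + 1) by
    ext x
    simp only [mem_Icc, mem_Ico]
    omega, ← Finset.sum_Ico_add']
  refine Finset.sum_congr rfl fun i _ => ?_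
  congr 1
  rw [show i + 1 + w - 1 = i + w by omega, Nat.add_div_right _ hw]
  exact Nat.succ_sub_one _

private theorem h55_block {w : ℕ} (hw : 0 < w) (a : ℕ → ℝ) (t : ℕ) :
    ∑ i ∈ range (t * w), a (i / w) = w * ∑ j ∈ range t, a j := by
  induction t with
  | zero => simp
  | succ t ih =>
    rw [Nat.succ_mul, Finset.sum_range_add, ih, Finset.sum_range_succ, mul_add]
    congr 1
    have h2 : ∀ i ∈ range w, a ((t * w + i) / w) = a t := by
      intro i hi
      congr 1
      rw [mul_comm t w, Nat.mul_add_div hw, Nat.div_eq_of_lt (mem_range.1 hi), add_zero]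
    rw [Finset.sum_congr rfl h2, Finset.sum_const, card_range, nsmul_eq_mul]

/-- Choice of the scale. -/
theorem exists_scale {D w : ℕ} (hD : 0 < D) (hw : 0 < w) (a : ℕ → ℝ) (ha : ∀ j, 0 ≤ a j)
    (ham : ∀ i j, i ≤ j → a i ≤ a j) :
    ∃ t, 1 ≤ t ∧ t ≤ D ∧ ∃ K : ℝ, CF (fun r => a ((r + w - 1) / w - 1)) (t * w) K ∧
      K * (w * D ^ 2) = (2 * (t * w : ℕ) + 1) * ∑ j ∈ range D, a j := by
  have hDr : (0 : ℝ) < D := by exact_mod_cast hD
  have hwr : (0 : ℝ) < w := by exact_mod_cast hw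
  set S : ℕ → ℝ := fun t => ∑ j ∈ range t, a j with hS
  have hSnn : ∀ t, 0 ≤ S t := fun t => Finset.sum_nonneg fun j _ => ha j
  have hSs : ∀ t, S (t + 1) = S t + a t := fun t => Finset.sum_range_succ _ _
  obtain ⟨l, hl⟩ : ∃ l : ℝ, l = S D / (D : ℝ) ^ 2 := ⟨_, rfl⟩
  have hlnn : 0 ≤ l := by rw [hl]; exact div_nonneg (hSnn D) (by positivity)
  have hlD : l * (D : ℝ) ^ 2 = S D := by
    rw [hl]
    field_simp
  obtain ⟨t, ht, hmin⟩ := Finset.exists_min_image (Icc 1 D) (fun t => S t - l * (t : ℝ) ^ 2)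
    ⟨1, by simp only [mem_Icc]; omega⟩
  rw [mem_Icc] at ht
  have h1 : S t ≤ l * (t : ℝ) ^ 2 := by
    have := hmin D (by simp only [mem_Icc]; omega)
    linarith
  have h2 : a (t - 1) ≤ l * (2 * t - 1) := by
    rcases Nat.lt_or_ge 1 t with h | h
    · have h3 := hmin (t - 1) (by simp only [mem_Icc]; omega)
      obtain ⟨s, rfl⟩ : ∃ s, t = s + 1 := ⟨t - 1, by omega⟩
      rw [Nat.add_sub_cancel] at h3 ⊢
      rw [hSs] at h3
      push_cast at h3 ⊢
      nlinarith
    · have h3 : t = 1 := by omega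
      subst h3
      have h4 : S 1 = a 0 := by simp [hS]
      rw [h4] at h1
      simp only [Nat.sub_self, Nat.cast_one] at h1 ⊢
      linarith
  have htr : (1 : ℝ) ≤ t := by exact_mod_cast ht.1
  have h3 : (t : ℝ) * a 0 ≤ S t := by
    have : ∑ j ∈ range t, a 0 ≤ ∑ j ∈ range t, a j :=
      Finset.sum_le_sum fun j _ => ham 0 j (Nat.zero_le _)
    rwa [Finset.sum_const, card_range, nsmul_eq_mul] at this
  have h4 : a 0 ≤ l * t := by
    have h5 : (t : ℝ) * a 0 ≤ t * (l * t) := by nlinarith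
    exact le_of_mul_le_mul_left h5 (by linarith)
  refine ⟨t, ht.1, ht.2, l * (2 * (t * w : ℕ) + 1) / w, ⟨?_, ?_, ?_, ?_⟩, ?_⟩
  · intro i
    exact ha _
  · intro i j hij _
    refine ham _ _ ?_
    have : (i + w - 1) / w ≤ (j + w - 1) / w := Nat.div_le_div_right (by omega)
    omega
  · have h5 : (t * w + w - 1) / w - 1 = t - 1 := by
      have : t * w + w - 1 = w * t + (w - 1) := by
        rw [mul_comm t w]
        omega
      rw [this, Nat.mul_add_div hw, Nat.div_eq_of_lt (by omega : w - 1 < w), add_zero]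
    rw [h5, le_div_iff₀ hwr]
    push_cast
    have h6 : a (t - 1) * w ≤ l * (2 * t - 1) * w := mul_le_mul_of_nonneg_right h2 hwr.le
    nlinarith [mul_nonneg hlnn hwr.le]
  · have h5 := (h55_shift hw a (t * w)).trans (h55_block hw a t)
    have h6 : (0 + w - 1) / w - 1 = 0 := by
      have : (0 + w - 1) / w = 0 := Nat.div_eq_of_lt (by omega)
      rw [this]
    rw [h5, h6]
    have h7 : l * (2 * ((t * w : ℕ) : ℝ) + 1) / w * ((t * w : ℕ) : ℝ) =
        l * t + 2 * (w * (l * (t : ℝ) ^ 2)) := by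
      push_cast
      field_simp
      ring
    rw [h7]
    have h8 : (w : ℝ) * ∑ j ∈ range t, a j ≤ w * (l * (t : ℝ) ^ 2) :=
      mul_le_mul_of_nonneg_left h1 hwr.le
    linarith
  · rw [show ∑ j ∈ range D, a j = S D from rfl, ← hlD]
    field_simp

end Pool.Agent.Helper51.BN
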