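import Pool.Agent.Helper51.BN.Frac
import Pool.Agent.Helper51.BN.Scale

/-! # Project BN, module BN-6b: covers by balls whose radii are multiples of `w` -/

set_option autoImplicit false

namespace Pool.Agent.Helper51.BN

open Finset

variable {V : Type*} [Fintype V] [DecidableEq V] {G : SimpleGraph V}

/-- A monotone minorant of the weights. -/
private theorem exists_minorant {D : ℕ} (hD : 0 < D) (a : Fin D → ℝ) (ha : ∀ j, 0 ≤ a j) :
    ∃ m : ℕ → ℝ, (∀ j, 0 ≤ m j) ∧ (∀ i j, i ≤ j → m i ≤ m j) ∧ (∀ j : Fin D, m j ≤ a j) ∧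
      ∀ j, j < D → ∃ i : Fin D, j ≤ i ∧ m j = a i := by
  have hne : ∀ j : ℕ, (univ.filter fun i : Fin D => min j (D - 1) ≤ (i : ℕ)).Nonempty := by
    intro j
    refine ⟨⟨D - 1, by omega⟩, ?_⟩
    rw [Finset.mem_filter]
    exact ⟨mem_univ _, min_le_right _ _⟩
  refine ⟨fun j => (univ.filter fun i : Fin D => min j (D - 1) ≤ (i : ℕ)).inf' (hne j) a,
    ?_, ?_, ?_, ?_⟩
  · intro j
    exact Finset.le_inf' _ _ fun i _ => ha i
  · intro i j hij
    refine Finset.le_inf' _ _ fun k hk => ?_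
    refine Finset.inf'_le _ ?_
    rw [Finset.mem_filter] at hk ⊢
    refine ⟨hk.1, ?_⟩
    have := hk.2
    omega
  · intro j
    refine Finset.inf'_le _ ?_
    rw [Finset.mem_filter]
    exact ⟨mem_univ _, min_le_left _ _⟩
  · intro j hj
    obtain ⟨i, hi, h⟩ := Finset.exists_mem_eq_inf' (hne j) a
    rw [Finset.mem_filter] at hi
    refine ⟨i, ?_, h⟩
    have := hi.2
    omega

/-- Class `j` is the radius `(j + 1) w`. -/
theorem exists_class_cover (hG : G.Connected) {D w : ℕ} (hD : 0 < D) (hw : 0 < w)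
    (a : Fin D → ℝ) (ha : ∀ j, 0 ≤ a j) {S : Finset V} {r : V} {e h : ℕ}
    (H : Built G S r e h) (he : 2 * (w * D) + 1 ≤ e) :
    ∃ C : Finset (V × Fin D), (∀ v ∈ S, ∃ p ∈ C, G.dist p.1 v ≤ ((p.2 : ℕ) + 1) * w) ∧
      (w * D ^ 2 : ℝ) * ∑ p ∈ C, a p.2 ≤ e * ∑ j, a j := by
  obtain ⟨m, m0, mm, ma, mi⟩ := exists_minorant hD a ha
  obtain ⟨t, ht1, htD, K, hK, hKe⟩ := exists_scale hD hw m m0 mm
  have htw : t * w ≤ w * D := by
    rw [Nat.mul_comm w D]
    exact Nat.mul_le_mul_right w htD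
  obtain ⟨C, hC1, hC2, hC3⟩ := exists_cover hG hK H (by omega)
  -- the class of a radius
  have hcl : ∀ ρ : ℕ, ∃ i : Fin D, ρ ≤ t * w →
      ρ ≤ ((i : ℕ) + 1) * w ∧ a i = m ((ρ + w - 1) / w - 1) := by
    intro ρ
    by_cases hρ : ρ ≤ t * w
    · have h1 : (ρ + w - 1) / w ≤ t := by
        rw [Nat.div_le_iff_le_mul_add_pred hw]
        have : w * t = t * w := Nat.mul_comm w t
        omega
      obtain ⟨i, hi1, hi2⟩ := mi ((ρ + w - 1) / w - 1) (by omega)
      refine ⟨i, fun _ => ⟨?_, hi2.symm⟩⟩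
      have h2 : (ρ + w - 1) / w ≤ (i : ℕ) + 1 := by omega
      have h3 : ρ ≤ (ρ + w - 1) / w * w := by
        have h4 := Nat.div_add_mod (ρ + w - 1) w
        have h5 := Nat.mod_lt (ρ + w - 1) hw
        have h6 : w * ((ρ + w - 1) / w) = (ρ + w - 1) / w * w := Nat.mul_comm _ _
        omega
      exact h3.trans (Nat.mul_le_mul_right w h2)
    · exact ⟨⟨0, hD⟩, fun h => absurd h hρ⟩
  choose cl hcl using hcl
  refine ⟨C.image fun p => (p.1, cl p.2), ?_, ?_⟩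
  · intro v hv
    obtain ⟨p, hp, hd⟩ := hC2 v hv
    refine ⟨(p.1, cl p.2), mem_image_of_mem _ hp, ?_⟩
    exact hd.trans (hcl p.2 (hC1 p hp)).1
  · have h1 : ∑ p ∈ C.image (fun p : V × ℕ => (p.1, cl p.2)), a p.2 ≤
        cost (fun r => m ((r + w - 1) / w - 1)) C := by
      have h2 : ∑ p ∈ C.image (fun p : V × ℕ => (p.1, cl p.2)), a p.2 ≤
          ∑ p ∈ C, a (cl p.2) := by
        refine (Finset.sum_le_sum_of_subset_of_nonneg (subset_refl _) (fun _ _ _ => ha _)).trans ?_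
        exact Finset.sum_image_le_of_nonneg (f := fun p : V × Fin D => a p.2)
          (g := fun p : V × ℕ => (p.1, cl p.2)) (fun p _ => ha _)
      refine h2.trans (le_of_eq ?_)
      unfold cost
      exact Finset.sum_congr rfl fun p hp => (hcl p.2 (hC1 p hp)).2
    have h3 : ∑ j ∈ range D, m j ≤ ∑ j, a j := by
      rw [Finset.sum_range]
      exact Finset.sum_le_sum fun j _ => ma j
    have hc0 : (0 : ℝ) < 2 * ((t * w : ℕ) : ℝ) + 1 := by positivity
    have hw0 : (0 : ℝ) ≤ w * D ^ 2 := by positivity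
    have he0 : (0 : ℝ) ≤ e := Nat.cast_nonneg e
    set c := cost (fun r => m ((r + w - 1) / w - 1)) C
    set sm := ∑ j ∈ range D, m j
    have h4 : (2 * ((t * w : ℕ) : ℝ) + 1) * ((w * D ^ 2 : ℝ) * c) ≤
        (2 * ((t * w : ℕ) : ℝ) + 1) * (e * sm) := by
      calc (2 * ((t * w : ℕ) : ℝ) + 1) * ((w * D ^ 2 : ℝ) * c)
          = (w * D ^ 2 : ℝ) * ((2 * ((t * w : ℕ) : ℝ) + 1) * c) := by ring
        _ ≤ (w * D ^ 2 : ℝ) * (K * e) := mul_le_mul_of_nonneg_left hC3 hw0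
        _ = (K * (w * D ^ 2)) * e := by ring
        _ = (2 * ((t * w : ℕ) : ℝ) + 1) * (e * sm) := by rw [hKe]; ring
    have h5 := le_of_mul_le_mul_left h4 hc0
    calc (w * D ^ 2 : ℝ) * ∑ p ∈ C.image (fun p : V × ℕ => (p.1, cl p.2)), a p.2
        ≤ (w * D ^ 2 : ℝ) * c := mul_le_mul_of_nonneg_left h1 hw0
      _ ≤ e * sm := h5
      _ ≤ e * ∑ j, a j := mul_le_mul_of_nonneg_left h3 he0

end Pool.Agent.Helper51.BN
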