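import Pool.Prelude.Def_F_f3d83fae

/-!
# Project BN (burning number): definitions
-/

set_option autoImplicit false

namespace Pool.Agent.Helper51.BN

open Finset

/-- `Built G S r e h`: the vertices of `S` carry a rooted tree in `G` with root `r`, with `e` edges
and of height at most `h`, built from points, stems and joins at the root. -/
inductive Built {V : Type*} [DecidableEq V] (G : SimpleGraph V) :
    Finset V → V → ℕ → ℕ → Prop
  | pt (r : V) : Built G {r} r 0 0
  | ext {S : Finset V} {c : V} {e h : ℕ} (r : V) : Built G S c e h → G.Adj r c →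
      Built G (insert r S) r (e + 1) (h + 1)
  | join {S T : Finset V} {r : V} {e f h k : ℕ} : Built G S r e h → Built G T r f k →
      Built G (S ∪ T) r (e + f) (max h k)

variable {V : Type*} [Fintype V] [DecidableEq V]

/-- The pair `(c, ρ)` is the ball with centre `c` and radius `ρ`; the state `s` of the root `r`:
if `s < 0`, then the vertices at distance less than `-s` of the root need not be covered; if
`s ≥ 0`, then some ball must reach `s` beyond the root. -/
def Good (G : SimpleGraph V) (S : Finset V) (r : V) (s : ℤ) (C : Finset (V × ℕ)) : Prop :=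
  (∀ v ∈ S, (∃ p ∈ C, G.dist p.1 v ≤ p.2) ∨ (G.dist r v : ℤ) + s < 0) ∧
    (0 ≤ s → ∃ p ∈ C, (G.dist p.1 r : ℤ) + s ≤ p.2)

/-- The cost of a set of balls. -/
def cost (g : ℕ → ℝ) (C : Finset (V × ℕ)) : ℝ := ∑ p ∈ C, g p.2

/-- The least cost of balls of radius at most `b` which are good for the state `s`. -/
noncomputable def F (G : SimpleGraph V) (g : ℕ → ℝ) (b : ℕ) (S : Finset V) (r : V) (s : ℤ) : ℝ :=
  sInf {x | ∃ C : Finset (V × ℕ), (∀ p ∈ C, p.2 ≤ b) ∧ Good G S r s C ∧ cost g C = x}

/-- The hypotheses on the cost function. -/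
structure CF (g : ℕ → ℝ) (b : ℕ) (K : ℝ) : Prop where
  nonneg : ∀ i, 0 ≤ g i
  mono : ∀ i j, i ≤ j → j ≤ b → g i ≤ g j
  top : g b ≤ K
  sum : g 0 + 2 * ∑ j ∈ Finset.Icc 1 b, g j ≤ K * b

end Pool.Agent.Helper51.BN
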