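import Pool.Agent.Helper51.BN.Prof

/-! # Project BN, module BN-4: change of the root -/

set_option autoImplicit false

namespace Pool.Agent.Helper51.BN

open Finset

variable {V : Type*} [Fintype V] [DecidableEq V] {G : SimpleGraph V}

/-- A tree of height at least `b` with another tree attached at the root can be cut at a vertex
`p` into a tree of height exactly `b` and another one, both with root `p`. -/
theorem reroot {S U : Finset V} {r : V} {e h f k : ℕ} (H : Built G S r e h)
    (HU : Built G U r f k) {b : ℕ} (hb : b ≤ h) :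
    ∃ (p : V) (S₁ S₂ : Finset V) (e₁ e₂ k₂ : ℕ), Built G S₁ p e₁ b ∧ Built G S₂ p e₂ k₂ ∧
      S₁ ∪ S₂ = S ∪ U ∧ e₁ + e₂ = e + f := by
  induction H generalizing U f k with
  | pt r =>
    obtain rfl : b = 0 := Nat.le_zero.1 hb
    exact ⟨r, _, _, _, _, _, Built.pt r, HU, rfl, rfl⟩
  | @ext S c e h r HS hadj ih =>
    rcases Nat.lt_or_ge h b with hlt | hge
    · obtain rfl : b = h + 1 := by omega
      exact ⟨r, _, _, _, _, _, Built.ext r HS hadj, HU, rfl, rfl⟩
    · obtain ⟨p, S₁, S₂, e₁, e₂, k₂, h1, h2, h3, h4⟩ :=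
        ih (Built.ext c HU hadj.symm) hge
      refine ⟨p, S₁, S₂, e₁, e₂, k₂, h1, h2, ?_, by omega⟩
      rw [h3]
      have hc : c ∈ S := HS.mem
      have hr : r ∈ U := HU.mem
      ext v
      simp only [mem_union, mem_insert]
      constructor
      · rintro (hv | rfl | hv)
        · exact Or.inl (Or.inr hv)
        · exact Or.inl (Or.inr hc)
        · exact Or.inr hv
      · rintro ((rfl | hv) | hv)
        · exact Or.inr (Or.inr hr)
        · exact Or.inl hv
        · exact Or.inr (Or.inr hv)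
  | @join S T r e f' h k' HS HT ihS ihT =>
    rcases le_max_iff.1 hb with hb' | hb'
    · obtain ⟨p, S₁, S₂, e₁, e₂, k₂, h1, h2, h3, h4⟩ := ihS (Built.join HT HU) hb'
      refine ⟨p, S₁, S₂, e₁, e₂, k₂, h1, h2, ?_, by omega⟩
      rw [h3, union_assoc]
    · obtain ⟨p, S₁, S₂, e₁, e₂, k₂, h1, h2, h3, h4⟩ := ihT (Built.join HS HU) hb'
      refine ⟨p, S₁, S₂, e₁, e₂, k₂, h1, h2, ?_, by omega⟩
      rw [h3, ← union_assoc, union_comm T S]

end Pool.Agent.Helper51.BN
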