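import Pool.Agent.Helper51.BN.High
import Pool.Agent.Helper51.BN.Reroot

/-! # Project BN, module BN-5: the fractional theorem for one tree -/

set_option autoImplicit false

namespace Pool.Agent.Helper51.BN

open Finset

variable {V : Type*} [Fintype V] [DecidableEq V] {G : SimpleGraph V}

private theorem icc_split (a : ℤ → ℝ) (n : ℕ) :
    ∑ s ∈ Icc (-(n : ℤ)) n, a s = ∑ i ∈ range n, a (-(i : ℤ) - 1) + ∑ m ∈ range (n + 1), a m := by
  induction n with
  | zero => simp
  | succ n ih =>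
    have h1 : Icc (-((n + 1 : ℕ) : ℤ)) ((n + 1 : ℕ) : ℤ) =
        insert (-(n : ℤ) - 1) (insert ((n : ℤ) + 1) (Icc (-(n : ℤ)) n)) := by
      ext x
      simp only [mem_Icc, mem_insert]
      push_cast
      omega
    rw [h1, sum_insert, sum_insert, ih]
    · simp only [sum_range_succ]
      push_cast
      ring
    · simp only [mem_Icc]
      omega
    · simp only [mem_Icc, mem_insert]
      omega

theorem two_sided (hG : G.Connected) {g : ℕ → ℝ} {b : ℕ} {K : ℝ} (hg : CF g b K)
    {S T : Finset V} {r : V} {e f h k : ℕ} (H : Built G S r e h) (H' : Built G T r f k)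
    (hh : b ≤ h) (hk : b ≤ k) :
    (2 * b + 1) * F G g b (S ∪ T) r 0 ≤ K * ((e : ℝ) + f) := by
  have hS := high hG hg H hh
  have hT := high hG hg H' hk
  rw [icc_split, sum_range_succ] at hS hT
  have h1 : ∑ _m ∈ range b, F G g b (S ∪ T) r 0 ≤
      ∑ m ∈ range b, (F G g b S r m + F G g b T r (-(m : ℤ) - 1)) := by
    refine sum_le_sum fun m hm => ?_
    have hm' := mem_range.1 hm
    exact (F_mono hg.nonneg _ r (by omega) (by omega)).trans
      (F_join_nonneg hG hg.nonneg S T r hm'.le)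
  have h2 : ∑ _m ∈ range b, F G g b (S ∪ T) r 0 ≤
      ∑ m ∈ range b, (F G g b T r m + F G g b S r (-(m : ℤ) - 1)) := by
    refine sum_le_sum fun m hm => ?_
    have hm' := mem_range.1 hm
    rw [union_comm]
    exact (F_mono hg.nonneg _ r (by omega) (by omega)).trans
      (F_join_nonneg hG hg.nonneg T S r hm'.le)
  have h3 : F G g b (S ∪ T) r 0 ≤ F G g b S r b + F G g b T r b :=
    ((F_mono hg.nonneg _ r (by omega) le_rfl).trans
      (F_join_nonneg hG hg.nonneg S T r le_rfl)).trans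
      (add_le_add le_rfl (F_mono hg.nonneg T r (by omega) le_rfl))
  rw [sum_const, card_range, nsmul_eq_mul, sum_add_distrib] at h1 h2
  nlinarith

omit [Fintype V] [DecidableEq V] in
private theorem one_ball {g : ℕ → ℝ} {b : ℕ} {K : ℝ} (hg : CF g b K) {S : Finset V} {p : V}
    {e : ℕ} (he : 2 * b + 1 ≤ e) (hS : ∀ v ∈ S, G.dist p v ≤ b) :
    ∃ C : Finset (V × ℕ), (∀ p ∈ C, p.2 ≤ b) ∧ (∀ v ∈ S, ∃ p ∈ C, G.dist p.1 v ≤ p.2) ∧
      (2 * b + 1) * cost g C ≤ K * e := by
  refine ⟨{(p, b)}, by simp, fun v hv => ⟨(p, b), by simp, hS v hv⟩, ?_⟩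
  have h1 : cost g ({(p, b)} : Finset (V × ℕ)) = g b := by simp [cost]
  rw [h1]
  have h2 : (2 * (b : ℝ) + 1) ≤ e := by exact_mod_cast he
  have h3 := hg.nonneg b
  have h4 := hg.top
  calc (2 * (b : ℝ) + 1) * g b ≤ (e : ℝ) * K :=
        mul_le_mul h2 h4 h3 (by positivity)
    _ = K * e := mul_comm _ _

/-- The fractional theorem: cheap covers. -/
theorem exists_cover (hG : G.Connected) {g : ℕ → ℝ} {b : ℕ} {K : ℝ} (hg : CF g b K)
    {S : Finset V} {r : V} {e h : ℕ} (H : Built G S r e h) (he : 2 * b + 1 ≤ e) :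
    ∃ C : Finset (V × ℕ), (∀ p ∈ C, p.2 ≤ b) ∧ (∀ v ∈ S, ∃ p ∈ C, G.dist p.1 v ≤ p.2) ∧
      (2 * b + 1) * cost g C ≤ K * e := by
  rcases le_total h b with hb | hb
  · exact one_ball hg he fun v hv => (H.dist_le hG v hv).trans hb
  · obtain ⟨p, S₁, S₂, e₁, e₂, k₂, H1, H2, hU, hE⟩ := reroot H (Built.pt r) hb
    have hSr : S ∪ {r} = S := by
      rw [union_eq_left, singleton_subset_iff]
      exact H.mem
    rw [hSr] at hU
    rw [add_zero] at hE
    rcases le_total k₂ b with hk | hk
    · refine one_ball hg he (p := p) fun v hv => ?_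
      rw [← hU, mem_union] at hv
      rcases hv with hv | hv
      · exact H1.dist_le hG v hv
      · exact (H2.dist_le hG v hv).trans hk
    · have h1 := two_sided hG hg H1 H2 le_rfl hk
      obtain ⟨C, hC1, hC2, hC3⟩ := exists_F (G := G) hg.nonneg (b := b) (S₁ ∪ S₂) p
        (s := 0) (by omega)
      refine ⟨C, hC1, fun v hv => ?_, ?_⟩
      · rw [← hU] at hv
        rcases hC2.1 v hv with h | h
        · exact h
        · exfalso
          omega
      · rw [hC3]
        have h2 : ((e₁ : ℝ) + e₂) = e := by exact_mod_cast hE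
        rw [h2] at h1
        exact h1

end Pool.Agent.Helper51.BN
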