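import Pool.Agent.Helper51.BN.ProfC

/-! # Project BN, module BN-8c: greedy covers -/

set_option autoImplicit false

namespace Pool.Agent.Helper51.BN

open Finset

variable {V : Type*} [Fintype V] [DecidableEq V] {G : SimpleGraph V}

/-- The induction behind the greedy cover: the uncovered vertices are close to the root. -/
private theorem greedy_aux (hG : G.Connected) {S : Finset V} {r : V} {e h : ℕ}
    (H : Built G S r e h) (R : ℕ) :
    ∃ (Z : Finset V) (h' : ℕ), h' ≤ R ∧ Z.card * (R + 1) + h' ≤ e ∧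
      ∀ v ∈ S, (∃ z ∈ Z, G.dist z v ≤ R) ∨ G.dist r v ≤ h' := by
  induction H with
  | pt r =>
    refine ⟨∅, 0, Nat.zero_le _, by simp, fun v hv => Or.inr ?_⟩
    rw [Finset.mem_singleton] at hv
    subst hv
    simp
  | @ext S c e h r _ hadj ih =>
    obtain ⟨Z, h', hR, hc, hcov⟩ := ih
    have hd : ∀ v, G.dist r v ≤ 1 + G.dist c v := by
      intro v
      have h1 := hG.dist_triangle (u := r) (v := c) (w := v)
      have h2 : G.dist r c = 1 := SimpleGraph.dist_eq_one_iff_adj.mpr hadj
      omega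
    rcases Nat.lt_or_ge h' R with hlt | hge
    · refine ⟨Z, h' + 1, hlt, by omega, fun v hv => ?_⟩
      rcases Finset.mem_insert.mp hv with rfl | hv
      · right
        simp
      · rcases hcov v hv with h1 | h1
        · exact Or.inl h1
        · right
          have := hd v
          omega
    · have hcard : (insert c Z).card ≤ Z.card + 1 := Finset.card_insert_le _ _
      refine ⟨insert c Z, 0, Nat.zero_le _, ?_, fun v hv => ?_⟩
      · have h1 : (insert c Z).card * (R + 1) ≤ (Z.card + 1) * (R + 1) :=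
          Nat.mul_le_mul_right _ hcard
        have h2 : (Z.card + 1) * (R + 1) = Z.card * (R + 1) + (R + 1) := by ring
        omega
      · rcases Finset.mem_insert.mp hv with rfl | hv
        · right
          simp
        · left
          rcases hcov v hv with ⟨z, hz, hzv⟩ | h1
          · exact ⟨z, Finset.mem_insert_of_mem hz, hzv⟩
          · exact ⟨c, Finset.mem_insert_self _ _, h1.trans hR⟩
  | @join S T r e f h k _ _ ih1 ih2 =>
    obtain ⟨Z1, h1, hR1, hc1, hcov1⟩ := ih1
    obtain ⟨Z2, h2, hR2, hc2, hcov2⟩ := ih2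
    have hcard : (Z1 ∪ Z2).card ≤ Z1.card + Z2.card := Finset.card_union_le _ _
    refine ⟨Z1 ∪ Z2, max h1 h2, max_le hR1 hR2, ?_, fun v hv => ?_⟩
    · have h3 : (Z1 ∪ Z2).card * (R + 1) ≤ (Z1.card + Z2.card) * (R + 1) :=
        Nat.mul_le_mul_right _ hcard
      have h4 : (Z1.card + Z2.card) * (R + 1) = Z1.card * (R + 1) + Z2.card * (R + 1) := by ring
      have h5 : max h1 h2 ≤ h1 + h2 := max_le (Nat.le_add_right _ _) (Nat.le_add_left _ _)
      omega
    · rcases Finset.mem_union.mp hv with hv | hv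
      · rcases hcov1 v hv with ⟨z, hz, hzv⟩ | h6
        · exact Or.inl ⟨z, Finset.mem_union_left _ hz, hzv⟩
        · exact Or.inr (h6.trans (le_max_left _ _))
      · rcases hcov2 v hv with ⟨z, hz, hzv⟩ | h6
        · exact Or.inl ⟨z, Finset.mem_union_right _ hz, hzv⟩
        · exact Or.inr (h6.trans (le_max_right _ _))

/-- Greedy covers by balls of radius `R`. -/
theorem exists_greedy (hG : G.Connected) {S : Finset V} {r : V} {e h : ℕ} (H : Built G S r e h)
    (R : ℕ) : ∃ Z : Finset V, Z.card ≤ e / (R + 1) + 1 ∧ ∀ v ∈ S, ∃ z ∈ Z, G.dist z v ≤ R := by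
  obtain ⟨Z, h', hR, hc, hcov⟩ := greedy_aux hG H R
  refine ⟨insert r Z, ?_, fun v hv => ?_⟩
  · have h1 : Z.card ≤ e / (R + 1) := by
      have hc' : Z.card * (R + 1) ≤ e := by omega
      exact (Nat.le_div_iff_mul_le (Nat.succ_pos R)).mpr hc'
    have h2 : (insert r Z).card ≤ Z.card + 1 := Finset.card_insert_le _ _
    omega
  · rcases hcov v hv with ⟨z, hz, hzv⟩ | h1
    · exact ⟨z, Finset.mem_insert_of_mem hz, hzv⟩
    · exact ⟨r, Finset.mem_insert_self _ _, h1.trans hR⟩

end Pool.Agent.Helper51.BN
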