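import Pool.Agent.Helper51.BN.Low

/-! # Project BN, module BN-3: trees of large height -/

set_option autoImplicit false

namespace Pool.Agent.Helper51.BN

open Finset

variable {V : Type*} [Fintype V] [DecidableEq V] {G : SimpleGraph V}

private theorem icc_split (a : ℤ → ℝ) (n : ℕ) :
    ∑ s ∈ Icc (-(n : ℤ)) n, a s = ∑ i ∈ range n, a (-(i : ℤ) - 1) + ∑ m ∈ range (n + 1), a m := by
  induction n with
  | zero => simp
  | succ n ih =>
    have h1 : Icc (-((n + 1 : ℕ) : ℤ)) ((n + 1 : ℕ) : ℤ) =
        insert (-(n : ℤ) - 1) (insert ((n : ℤ) + 1) (Icc (-(n : ℤ)) n)) := by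
      ext x
      simp only [mem_Icc, mem_insert]
      push_cast
      omega
    rw [h1, sum_insert, sum_insert, ih]
    · simp only [sum_range_succ]
      push_cast
      ring
    · simp only [mem_Icc]
      omega
    · simp only [mem_Icc, mem_insert]
      omega

private theorem lowb (hG : G.Connected) {g : ℕ → ℝ} {b : ℕ} {K : ℝ} (hg : CF g b K)
    {S : Finset V} {r : V} {e h : ℕ} (H : Built G S r e h) (hh : h = b) :
    ∑ s ∈ Icc (-(b : ℤ)) b, F G g b S r s ≤ K * e := by
  have h1 := low hG hg H hh.le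
  subst hh
  have h2 := hg.sum
  nlinarith

private theorem tail (hG : G.Connected) {g : ℕ → ℝ} {b : ℕ} {K : ℝ} (hg : CF g b K)
    {T : Finset V} {r : V} {f k : ℕ} (H : Built G T r f k)
    (ih : b ≤ k → ∑ s ∈ Icc (-(b : ℤ)) b, F G g b T r s ≤ K * f) :
    ∑ i ∈ range b, F G g b T r (-(i : ℤ) - 1) + ∑ m ∈ range (b + 1), F G g b T r (-(m : ℤ) - 1) ≤
      K * f := by
  rcases le_total k b with hk | hk
  · have h1 := light hG hg H hk b
    have h2 := light hG hg H hk (b + 1)
    have h3 := sum_range_le hg hk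
    nlinarith
  · have h1 := ih hk
    rw [icc_split] at h1
    have h2 : ∑ m ∈ range (b + 1), F G g b T r (-(m : ℤ) - 1) ≤
        ∑ m ∈ range (b + 1), F G g b T r m := by
      refine sum_le_sum fun m hm => F_mono hg.nonneg T r (by omega) ?_
      have := mem_range.1 hm
      omega
    linarith

private theorem joinb (hG : G.Connected) {g : ℕ → ℝ} {b : ℕ} {K : ℝ} (hg : CF g b K)
    {S T : Finset V} {r : V} {e f k : ℕ} (hS : ∑ s ∈ Icc (-(b : ℤ)) b, F G g b S r s ≤ K * e)
    (H : Built G T r f k)
    (ih : b ≤ k → ∑ s ∈ Icc (-(b : ℤ)) b, F G g b T r s ≤ K * f) :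
    ∑ s ∈ Icc (-(b : ℤ)) b, F G g b (S ∪ T) r s ≤ K * ((e + f : ℕ) : ℝ) := by
  have h1 := tail hG hg H ih
  rw [icc_split] at hS ⊢
  have h2 : ∑ i ∈ range b, F G g b (S ∪ T) r (-(i : ℤ) - 1) ≤
      ∑ i ∈ range b, (F G g b S r (-(i : ℤ) - 1) + F G g b T r (-(i : ℤ) - 1)) :=
    sum_le_sum fun i _ => F_join_neg hg.nonneg S T r (by omega)
  have h3 : ∑ m ∈ range (b + 1), F G g b (S ∪ T) r m ≤
      ∑ m ∈ range (b + 1), (F G g b S r m + F G g b T r (-(m : ℤ) - 1)) :=
    sum_le_sum fun m hm => F_join_nonneg hG hg.nonneg S T r (by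
      have := mem_range.1 hm
      omega)
  rw [sum_add_distrib] at h2 h3
  push_cast
  linarith

theorem high (hG : G.Connected) {g : ℕ → ℝ} {b : ℕ} {K : ℝ} (hg : CF g b K) {S : Finset V}
    {r : V} {e h : ℕ} (H : Built G S r e h) (hh : b ≤ h) :
    ∑ s ∈ Icc (-(b : ℤ)) b, F G g b S r s ≤ K * e := by
  induction H with
  | pt r => exact lowb hG hg (Built.pt r) (by omega)
  | @ext S c e h r H hadj ih =>
    rcases Nat.lt_or_ge h b with hb | hb
    · exact lowb hG hg (Built.ext r H hadj) (by omega)
    · have h1 := ih hb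
      have hc : c ∈ S := H.mem
      have h2 : ∑ s ∈ Icc (-(b : ℤ)) b, F G g b (insert r S) r s =
          ∑ s ∈ Ico (-(b : ℤ)) b, F G g b (insert r S) r s + F G g b (insert r S) r b := by
        rw [← Ico_insert_right (show (-(b : ℤ)) ≤ b by omega), sum_insert (by simp)]
        ring
      have h3 : ∑ s ∈ Icc (-(b : ℤ)) b, F G g b S c s =
          ∑ s ∈ Ico (-(b : ℤ)) b, F G g b S c (s + 1) + F G g b S c (-(b : ℤ)) := by
        have h4 : ∑ s ∈ Ico (-(b : ℤ)) b, F G g b S c (s + 1) =
            ∑ s ∈ Ioc (-(b : ℤ)) b, F G g b S c s := by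
          refine sum_nbij' (fun s => s + 1) (fun s => s - 1) ?_ ?_ ?_ ?_ ?_
          · intro s hs
            simp only [mem_Ico, mem_Ioc] at hs ⊢
            omega
          · intro s hs
            simp only [mem_Ico, mem_Ioc] at hs ⊢
            omega
          · intro s _
            simp
          · intro s _
            simp
          · intro s _
            rfl
        rw [h4, ← Ioc_insert_left (show (-(b : ℤ)) ≤ b by omega), sum_insert (by simp)]
        ring
      have h5 : ∑ s ∈ Ico (-(b : ℤ)) b, F G g b (insert r S) r s ≤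
          ∑ s ∈ Ico (-(b : ℤ)) b, F G g b S c (s + 1) :=
        sum_le_sum fun s hs => F_ext hG hg.nonneg hc hadj (by
          have := mem_Ico.1 hs
          omega)
      have h6 := F_top (b := b) hG hg.nonneg (S := S) hadj
      have h7 := hg.top
      push_cast
      linarith
  | @join S T r e f h k HS HT ihS ihT =>
    rcases le_total k h with hk | hk
    · have hb : b ≤ h := by
        rw [max_eq_left hk] at hh
        exact hh
      exact joinb hG hg (ihS hb) HT ihT
    · have hb : b ≤ k := by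
        rw [max_eq_right hk] at hh
        exact hh
      rw [union_comm, add_comm e f]
      exact joinb hG hg (ihT hb) HS ihS

end Pool.Agent.Helper51.BN
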