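import Pool.Agent.Helper51.BN.Prof

/-! # Project BN, module BN-2: trees of small height -/

set_option autoImplicit false

namespace Pool.Agent.Helper51.BN

open Finset

variable {V : Type*} [Fintype V] [DecidableEq V] {G : SimpleGraph V}

theorem sum_range_le {g : ℕ → ℝ} {b : ℕ} {K : ℝ} (hg : CF g b K) {h : ℕ} (hh : h ≤ b) :
    2 * ∑ j ∈ range h, g j ≤ K * h := by
  rcases Nat.eq_zero_or_pos b with hb | hb
  · subst hb
    obtain rfl : h = 0 := by omega
    simp
  · -- the average of an initial segment is at most the average of the whole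
    have havg : ∀ n, n ≤ b → ∀ l, l ≤ n →
        (n : ℝ) * ∑ j ∈ range l, g j ≤ (l : ℝ) * ∑ j ∈ range n, g j := by
      intro n
      induction n with
      | zero =>
        intro _ l hl
        obtain rfl : l = 0 := by omega
        simp
      | succ n ih =>
        intro hn l hl
        rcases Nat.lt_or_ge n l with h1 | h1
        · obtain rfl : l = n + 1 := by omega
          exact le_refl _
        · have h2 := ih (by omega) l h1
          have h3 : ∑ j ∈ range l, g j ≤ (l : ℝ) * g n := by
            have h4 : ∑ j ∈ range l, g j ≤ ∑ _j ∈ range l, g n :=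
              Finset.sum_le_sum (fun j hj => hg.mono j n
                (by have := Finset.mem_range.mp hj; omega) (by omega))
            simpa using h4
          rw [Finset.sum_range_succ (fun j => g j) n]
          push_cast
          nlinarith
    have h1 := havg b le_rfl h hh
    have h2 : 2 * ∑ j ∈ range b, g j ≤ K * b := by
      have h3 : ∑ j ∈ Finset.Icc 1 b, g j = ∑ j ∈ range b, g (j + 1) := by
        rw [Finset.range_eq_Ico, Finset.sum_Ico_add' (fun j => g j) 0 b 1]
        apply Finset.sum_congr _ (fun _ _ => rfl)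
        ext x
        simp only [Finset.mem_Icc, Finset.mem_Ico]
        omega
      have h4 : ∑ j ∈ range (b + 1), g j = ∑ j ∈ range b, g (j + 1) + g 0 :=
        Finset.sum_range_succ' (fun j => g j) b
      have h5 : ∑ j ∈ range (b + 1), g j = ∑ j ∈ range b, g j + g b :=
        Finset.sum_range_succ (fun j => g j) b
      have h6 := hg.sum
      rw [h3] at h6
      have h7 := hg.mono 0 b (Nat.zero_le _) le_rfl
      have h8 := hg.nonneg b
      linarith
    have hb' : (0 : ℝ) < b := by exact_mod_cast hb
    have h3 : (b : ℝ) * (2 * ∑ j ∈ range h, g j) ≤ (b : ℝ) * (K * h) := by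
      have h4 : (0 : ℝ) ≤ h := Nat.cast_nonneg h
      nlinarith [mul_le_mul_of_nonneg_left h2 h4]
    exact le_of_mul_le_mul_left h3 hb'

private theorem sum_join {g : ℕ → ℝ} {b : ℕ} {K : ℝ} (hg : CF g b K) (S T : Finset V) (r : V)
    (m : ℕ) :
    ∑ i ∈ range m, F G g b (S ∪ T) r (-(i : ℤ) - 1) ≤
      ∑ i ∈ range m, F G g b S r (-(i : ℤ) - 1) + ∑ i ∈ range m, F G g b T r (-(i : ℤ) - 1) := by
  rw [← Finset.sum_add_distrib]
  exact Finset.sum_le_sum (fun i _ => F_join_neg hg.nonneg S T r (by omega))

/-- Tree of height at most `h ≤ b`: the sum of the profile over the gifts. -/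
theorem light (hG : G.Connected) {g : ℕ → ℝ} {b : ℕ} {K : ℝ} (hg : CF g b K) {S : Finset V}
    {r : V} {e h : ℕ} (H : Built G S r e h) (hh : h ≤ b) (m : ℕ) :
    2 * ∑ i ∈ range m, F G g b S r (-(i : ℤ) - 1) ≤
      2 * ∑ j ∈ range h, g j + K * ((e : ℝ) - h) := by
  have hK : 0 ≤ K := (hg.nonneg b).trans hg.top
  induction H generalizing m with
  | pt r =>
    have h1 : ∀ i ∈ range m, F G g b {r} r (-(i : ℤ) - 1) = 0 := by
      intro i _
      apply F_zero (h := 0) hg.nonneg
      · intro v hv
        rw [Finset.mem_singleton.mp hv]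
        simp
      · push_cast
        omega
    rw [Finset.sum_eq_zero h1]
    simp
  | @ext S c e h r H hadj ih =>
    have hle : h ≤ e := H.le_edges
    have hle' : (h : ℝ) ≤ e := by exact_mod_cast hle
    cases m with
    | zero =>
      have h1 : 0 ≤ ∑ j ∈ range (h + 1), g j := Finset.sum_nonneg (fun j _ => hg.nonneg j)
      simp only [Finset.range_zero, Finset.sum_empty, mul_zero]
      push_cast
      have h2 : 0 ≤ K * ((e : ℝ) - h) := mul_nonneg hK (by linarith)
      nlinarith
    | succ m =>
      have ih' := ih (by omega) m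
      rw [Finset.sum_range_succ', Finset.sum_range_succ (fun j => g j) h]
      have hc : c ∈ S := H.mem
      have h1 : F G g b (insert r S) r (-((0 : ℕ) : ℤ) - 1) ≤ g h := by
        have h2 := F_ext hG hg.nonneg (b := b) (S := S) hc hadj (s := -((0 : ℕ) : ℤ) - 1)
          (by push_cast; omega)
        have h3 : F G g b S c (-((0 : ℕ) : ℤ) - 1 + 1) ≤ F G g b S c (h : ℤ) :=
          F_mono hg.nonneg S c (by push_cast; omega) (by exact_mod_cast (by omega : h ≤ b))
        have h4 : F G g b S c (h : ℤ) ≤ g h :=
          F_ball hg.nonneg (H.dist_le hG) le_rfl (by omega)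
        linarith
      have h5 : ∑ i ∈ range m, F G g b (insert r S) r (-((i + 1 : ℕ) : ℤ) - 1) ≤
          ∑ i ∈ range m, F G g b S c (-(i : ℤ) - 1) := by
        apply Finset.sum_le_sum
        intro i _
        have h6 := F_ext hG hg.nonneg (b := b) (S := S) hc hadj (s := -((i + 1 : ℕ) : ℤ) - 1)
          (by push_cast; omega)
        have h7 : (-((i + 1 : ℕ) : ℤ) - 1 + 1) = -(i : ℤ) - 1 := by push_cast; ring
        rw [h7] at h6
        exact h6
      push_cast at h1 h5 ih' ⊢
      linarith
  | @join S T r e f h k HS HT ihS ihT =>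
    have hS := ihS ((le_max_left _ _).trans hh) m
    have hT := ihT ((le_max_right _ _).trans hh) m
    have hj := sum_join (G := G) hg S T r m
    rcases le_total k h with hkh | hkh
    · rw [max_eq_left hkh] at hh ⊢
      have h1 := sum_range_le hg (hkh.trans hh)
      push_cast
      linarith
    · rw [max_eq_right hkh] at hh ⊢
      have h1 := sum_range_le hg (hkh.trans hh)
      push_cast
      linarith

end Pool.Agent.Helper51.BN
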