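import Pool.Agent.Helper51.BN.Light

/-! # Project BN, module BN-2b: trees of small height, all states -/

set_option autoImplicit false

namespace Pool.Agent.Helper51.BN

open Finset

variable {V : Type*} [Fintype V] [DecidableEq V] {G : SimpleGraph V}

private theorem sum_split (a : ℤ → ℝ) (n : ℕ) :
    ∑ s ∈ Icc (-(n : ℤ)) n, a s =
      ∑ i ∈ range n, a (-(i : ℤ) - 1) + ∑ m ∈ range (n + 1), a (m : ℤ) := by
  induction n with
  | zero => simp
  | succ n ih =>
    have h1 : Icc (-((n + 1 : ℕ) : ℤ)) ((n + 1 : ℕ) : ℤ) =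
        insert (-(n : ℤ) - 1) (insert ((n + 1 : ℕ) : ℤ) (Icc (-(n : ℤ)) n)) := by
      ext x
      simp only [mem_Icc, mem_insert]
      push_cast
      omega
    have h2 : (-(n : ℤ) - 1) ∉ insert ((n + 1 : ℕ) : ℤ) (Icc (-(n : ℤ)) n) := by
      simp only [mem_Icc, mem_insert]
      push_cast
      omega
    have h3 : ((n + 1 : ℕ) : ℤ) ∉ Icc (-(n : ℤ)) n := by
      simp only [mem_Icc]
      push_cast
      omega
    rw [h1, sum_insert h2, sum_insert h3, ih, Finset.sum_range_succ (fun i : ℕ => a (-(i : ℤ) - 1)) n,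
      Finset.sum_range_succ (fun m : ℕ => a (m : ℤ)) (n + 1)]
    ring

private theorem sum_shift (a : ℤ → ℝ) (n : ℕ) :
    ∑ s ∈ Icc (-((n + 1 : ℕ) : ℤ)) ((n + 1 : ℕ) : ℤ), a s =
      ∑ s ∈ Icc (-(n : ℤ)) n, a (s - 1) + a n + a ((n + 1 : ℕ) : ℤ) := by
  have h1 : Icc (-((n + 1 : ℕ) : ℤ)) ((n + 1 : ℕ) : ℤ) =
      insert ((n + 1 : ℕ) : ℤ) (insert (n : ℤ) ((Icc (-(n : ℤ)) n).image (fun s => s - 1))) := by
    ext x
    simp only [mem_Icc, mem_insert, mem_image]
    constructor
    · intro hx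
      by_cases h1 : x = ((n + 1 : ℕ) : ℤ)
      · exact Or.inl h1
      · by_cases h2 : x = (n : ℤ)
        · exact Or.inr (Or.inl h2)
        · right
          right
          refine ⟨x + 1, ?_, by ring⟩
          push_cast at hx h1
          omega
    · rintro (rfl | rfl | ⟨y, hy, rfl⟩)
      · push_cast
        omega
      · push_cast
        omega
      · push_cast
        omega
  have h2 : ((n + 1 : ℕ) : ℤ) ∉ insert (n : ℤ) ((Icc (-(n : ℤ)) n).image (fun s => s - 1)) := by
    simp only [mem_Icc, mem_insert, mem_image]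
    rintro (h | ⟨y, hy, h⟩)
    · push_cast at h
      omega
    · push_cast at h
      omega
  have h3 : (n : ℤ) ∉ (Icc (-(n : ℤ)) n).image (fun s => s - 1) := by
    simp only [mem_Icc, mem_image]
    rintro ⟨y, hy, h⟩
    omega
  rw [h1, sum_insert h2, sum_insert h3, sum_image (by intro x _ y _ h; simpa using h)]
  ring

private theorem low_join {g : ℕ → ℝ} {b : ℕ} {K : ℝ} (hG : G.Connected) (hg : CF g b K)
    {S T : Finset V} {r : V} {e f h k : ℕ} (HT : Built G T r f k) (hh : h ≤ b) (hkh : k ≤ h)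
    (hS : ∑ s ∈ Icc (-(h : ℤ)) h, F G g b S r s ≤
      g 0 + 2 * ∑ j ∈ Icc 1 h, g j + K * ((e : ℝ) - h)) :
    ∑ s ∈ Icc (-(h : ℤ)) h, F G g b (S ∪ T) r s ≤
      g 0 + 2 * ∑ j ∈ Icc 1 h, g j + K * (((e + f : ℕ) : ℝ) - h) := by
  have h1 := light hG hg HT (hkh.trans hh) h
  have h2 := light hG hg HT (hkh.trans hh) (h + 1)
  have h3 := sum_range_le hg (hkh.trans hh)
  have h4 : ∑ s ∈ Icc (-(h : ℤ)) h, F G g b (S ∪ T) r s ≤
      ∑ s ∈ Icc (-(h : ℤ)) h, F G g b S r s + ∑ i ∈ range h, F G g b T r (-(i : ℤ) - 1) +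
        ∑ i ∈ range (h + 1), F G g b T r (-(i : ℤ) - 1) := by
    rw [sum_split, sum_split]
    have h5 : ∑ i ∈ range h, F G g b (S ∪ T) r (-(i : ℤ) - 1) ≤
        ∑ i ∈ range h, F G g b S r (-(i : ℤ) - 1) +
          ∑ i ∈ range h, F G g b T r (-(i : ℤ) - 1) := by
      rw [← Finset.sum_add_distrib]
      exact Finset.sum_le_sum (fun i _ => F_join_neg hg.nonneg S T r (by omega))
    have h6 : ∑ m ∈ range (h + 1), F G g b (S ∪ T) r (m : ℤ) ≤
        ∑ m ∈ range (h + 1), F G g b S r (m : ℤ) +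
          ∑ m ∈ range (h + 1), F G g b T r (-(m : ℤ) - 1) := by
      rw [← Finset.sum_add_distrib]
      refine Finset.sum_le_sum (fun m hm => F_join_nonneg hG hg.nonneg S T r ?_)
      have := Finset.mem_range.mp hm
      omega
    linarith
  push_cast
  linarith

/-- The same for the sum over the states between `-h` and `h`. -/
theorem low (hG : G.Connected) {g : ℕ → ℝ} {b : ℕ} {K : ℝ} (hg : CF g b K) {S : Finset V}
    {r : V} {e h : ℕ} (H : Built G S r e h) (hh : h ≤ b) :
    ∑ s ∈ Icc (-(h : ℤ)) h, F G g b S r s ≤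
      g 0 + 2 * ∑ j ∈ Icc 1 h, g j + K * ((e : ℝ) - h) := by
  induction H with
  | pt r =>
    have h1 : F G g b {r} r ((0 : ℕ) : ℤ) ≤ g 0 := by
      apply F_ball (h := 0) hg.nonneg _ le_rfl (Nat.zero_le b)
      intro v hv
      rw [Finset.mem_singleton.mp hv]
      simp
    simpa using h1
  | @ext S c e h r H hadj ih =>
    have ih' := ih (by omega)
    have hc : c ∈ S := H.mem
    have HE : Built G (insert r S) r (e + 1) (h + 1) := Built.ext r H hadj
    have h1 : F G g b (insert r S) r ((h + 1 : ℕ) : ℤ) ≤ g (h + 1) :=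
      F_ball hg.nonneg (HE.dist_le hG) le_rfl hh
    have h2 : F G g b (insert r S) r (h : ℤ) ≤ g (h + 1) :=
      (F_mono hg.nonneg (insert r S) r (by push_cast; omega) (by exact_mod_cast hh)).trans h1
    have h3 : ∑ s ∈ Icc (-(h : ℤ)) h, F G g b (insert r S) r (s - 1) ≤
        ∑ s ∈ Icc (-(h : ℤ)) h, F G g b S c s := by
      apply Finset.sum_le_sum
      intro s hs
      have hs' := Finset.mem_Icc.mp hs
      have h4 := F_ext hG hg.nonneg (b := b) (S := S) hc hadj (s := s - 1) (by omega)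
      rwa [sub_add_cancel] at h4
    rw [sum_shift, Finset.sum_Icc_succ_top (by omega)]
    push_cast at h1 ⊢
    linarith
  | @join S T r e f h k HS HT ihS ihT =>
    rcases le_total k h with hkh | hkh
    · rw [max_eq_left hkh] at hh ⊢
      exact low_join hG hg HT hh hkh (ihS hh)
    · rw [max_eq_right hkh] at hh ⊢
      have h1 := low_join hG hg HS hh hkh (ihT hh)
      rw [Finset.union_comm, Nat.add_comm]
      exact h1

end Pool.Agent.Helper51.BN
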