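import Mathlib

/-! # Project BN, module BN-10: numerics -/

set_option autoImplicit false

namespace Pool.Agent.Helper51.BN

theorem exists_params (n : ℕ) (hn : 0 < n) : ∃ D w : ℕ, 0 < D ∧ 0 < w ∧ n ≤ (w * D) ^ 2 ∧
    (((D + 1) * w + (4 * D + 2) : ℕ) : ℝ) ≤ Real.sqrt n + 6 * (n : ℝ) ^ (1 / 4 : ℝ) + 8 := by
  have hn1 : (1 : ℝ) ≤ n := by exact_mod_cast hn
  have hn0 : (0 : ℝ) ≤ n := by linarith
  obtain ⟨x, hx⟩ : ∃ x : ℝ, x = (n : ℝ) ^ (1 / 4 : ℝ) := ⟨_, rfl⟩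
  have hx1 : 1 ≤ x := by
    rw [hx]
    exact Real.one_le_rpow hn1 (by norm_num)
  have hx2 : x ^ 2 = Real.sqrt n := by
    rw [hx, ← Real.rpow_natCast, ← Real.rpow_mul hn0, Real.sqrt_eq_rpow]
    norm_num
  have hx4 : x ^ 4 = n := by
    rw [hx, ← Real.rpow_natCast, ← Real.rpow_mul hn0]
    norm_num
  rw [← hx2, ← hx]
  obtain ⟨w, hw⟩ : ∃ w : ℕ, w = ⌈3 * x / 2⌉₊ := ⟨_, rfl⟩
  have hw1 : 3 * x / 2 ≤ w := by
    rw [hw]
    exact Nat.le_ceil _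
  have hw2 : (w : ℝ) < 3 * x / 2 + 1 := by
    rw [hw]
    exact Nat.ceil_lt_add_one (by linarith)
  have hwpos : (0 : ℝ) < w := by linarith
  obtain ⟨D, hD⟩ : ∃ D : ℕ, D = ⌈x ^ 2 / w⌉₊ := ⟨_, rfl⟩
  have hq : 0 < x ^ 2 / w := by positivity
  have hD1 : x ^ 2 / w ≤ D := by
    rw [hD]
    exact Nat.le_ceil _
  have hD2 : (D : ℝ) < x ^ 2 / w + 1 := by
    rw [hD]
    exact Nat.ceil_lt_add_one hq.le
  have hDpos : (0 : ℝ) < D := by linarith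
  have hwD : x ^ 2 ≤ w * D := by
    have := (div_le_iff₀ hwpos).1 hD1
    linarith
  refine ⟨D, w, by exact_mod_cast hDpos, by exact_mod_cast hwpos, ?_, ?_⟩
  · have h : (n : ℝ) ≤ ((w * D : ℕ) : ℝ) ^ 2 := by
      push_cast
      rw [← hx4, show x ^ 4 = (x ^ 2) ^ 2 by ring]
      exact pow_le_pow_left₀ (by positivity) hwD 2
    exact_mod_cast h
  · push_cast
    have e1 : x ^ 2 / w * w = x ^ 2 := div_mul_cancel₀ _ hwpos.ne'
    have e2 : x ^ 2 / w ≤ 2 * x / 3 := by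
      rw [div_le_iff₀ hwpos]
      nlinarith
    have h1 : ((D : ℝ) + 1) * w ≤ (x ^ 2 / w + 2) * w :=
      mul_le_mul_of_nonneg_right (by linarith) hwpos.le
    nlinarith

end Pool.Agent.Helper51.BN
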