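import Pool.Agent.Helper51.BN.ProfC

/-! # Project BN, module BN-8b: decomposition into pieces -/

set_option autoImplicit false

namespace Pool.Agent.Helper51.BN

open Finset

variable {V : Type*} [Fintype V] [DecidableEq V] {G : SimpleGraph V}

private theorem exists_pieces_list {S : Finset V} {r : V} {e h : ℕ} (H : Built G S r e h) {s : ℕ}
    (hs : 0 < s) :
    ∃ (L : List (Finset V × V × ℕ × ℕ)) (S₀ : Finset V) (e₀ h₀ : ℕ),
      (∀ x ∈ L, Built G x.1 x.2.1 x.2.2.1 x.2.2.2 ∧ s ≤ x.2.2.1 ∧ x.2.2.1 ≤ 2 * s - 1) ∧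
      Built G S₀ r e₀ h₀ ∧ e₀ < s ∧
      (∀ v ∈ S, v ∈ S₀ ∨ ∃ x ∈ L, v ∈ x.1) ∧ (L.map (fun x => x.2.2.1)).sum + e₀ = e := by
  induction H with
  | pt r =>
    exact ⟨[], {r}, 0, 0, by simp, Built.pt r, hs, fun v hv => Or.inl hv, by simp⟩
  | @ext S c e h r Hc hadj ih =>
    obtain ⟨L, S₀, e₀, h₀, h1, h2, h3, h4, h5⟩ := ih
    by_cases hlt : e₀ + 1 < s
    · refine ⟨L, insert r S₀, e₀ + 1, h₀ + 1, h1, Built.ext r h2 hadj, hlt, ?_, by omega⟩
      intro v hv
      rcases Finset.mem_insert.1 hv with rfl | hv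
      · exact Or.inl (Finset.mem_insert_self _ _)
      · rcases h4 v hv with h | h
        · exact Or.inl (Finset.mem_insert_of_mem h)
        · exact Or.inr h
    · refine ⟨(insert r S₀, r, e₀ + 1, h₀ + 1) :: L, {r}, 0, 0, ?_, Built.pt r, hs, ?_, ?_⟩
      · intro x hx
        rcases List.mem_cons.1 hx with rfl | hx
        · exact ⟨Built.ext r h2 hadj, by show s ≤ e₀ + 1; omega, by show e₀ + 1 ≤ 2 * s - 1; omega⟩
        · exact h1 x hx
      · intro v hv
        rcases Finset.mem_insert.1 hv with rfl | hv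
        · exact Or.inl (Finset.mem_singleton_self _)
        · rcases h4 v hv with h | ⟨x, hx, hvx⟩
          · exact Or.inr ⟨_, List.mem_cons_self, Finset.mem_insert_of_mem h⟩
          · exact Or.inr ⟨x, List.mem_cons_of_mem _ hx, hvx⟩
      · simp only [List.map_cons, List.sum_cons]
        omega
  | @join S T r e f h k HS HT ihS ihT =>
    obtain ⟨L, S₀, e₀, h₀, h1, h2, h3, h4, h5⟩ := ihS
    obtain ⟨M, T₀, f₀, k₀, g1, g2, g3, g4, g5⟩ := ihT
    by_cases hlt : e₀ + f₀ < s
    · refine ⟨L ++ M, S₀ ∪ T₀, e₀ + f₀, max h₀ k₀, ?_, Built.join h2 g2, hlt, ?_, ?_⟩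
      · intro x hx
        rcases List.mem_append.1 hx with hx | hx
        · exact h1 x hx
        · exact g1 x hx
      · intro v hv
        rcases Finset.mem_union.1 hv with hv | hv
        · rcases h4 v hv with h | ⟨x, hx, hvx⟩
          · exact Or.inl (Finset.mem_union_left _ h)
          · exact Or.inr ⟨x, List.mem_append_left _ hx, hvx⟩
        · rcases g4 v hv with h | ⟨x, hx, hvx⟩
          · exact Or.inl (Finset.mem_union_right _ h)
          · exact Or.inr ⟨x, List.mem_append_right _ hx, hvx⟩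
      · rw [List.map_append, List.sum_append]
        omega
    · refine ⟨(S₀ ∪ T₀, r, e₀ + f₀, max h₀ k₀) :: (L ++ M), {r}, 0, 0, ?_, Built.pt r, hs, ?_, ?_⟩
      · intro x hx
        rcases List.mem_cons.1 hx with rfl | hx
        · exact ⟨Built.join h2 g2, by show s ≤ e₀ + f₀; omega,
            by show e₀ + f₀ ≤ 2 * s - 1; omega⟩
        · rcases List.mem_append.1 hx with hx | hx
          · exact h1 x hx
          · exact g1 x hx
      · intro v hv
        rcases Finset.mem_union.1 hv with hv | hv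
        · rcases h4 v hv with h | ⟨x, hx, hvx⟩
          · exact Or.inr ⟨_, List.mem_cons_self, Finset.mem_union_left _ h⟩
          · exact Or.inr ⟨x, List.mem_cons_of_mem _ (List.mem_append_left _ hx), hvx⟩
        · rcases g4 v hv with h | ⟨x, hx, hvx⟩
          · exact Or.inr ⟨_, List.mem_cons_self, Finset.mem_union_right _ h⟩
          · exact Or.inr ⟨x, List.mem_cons_of_mem _ (List.mem_append_right _ hx), hvx⟩
      · simp only [List.map_cons, List.sum_cons]
        rw [List.map_append, List.sum_append]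
        omega

/-- Decomposition into pieces with at least `s` and at most `2 s - 1` edges, and a rest. -/
theorem exists_pieces {S : Finset V} {r : V} {e h : ℕ} (H : Built G S r e h) {s : ℕ}
    (hs : 0 < s) :
    ∃ (m : ℕ) (P : Fin m → Finset V) (q : Fin m → V) (f k : Fin m → ℕ) (S₀ : Finset V)
      (e₀ h₀ : ℕ), (∀ i, Built G (P i) (q i) (f i) (k i)) ∧ (∀ i, s ≤ f i) ∧
      (∀ i, f i ≤ 2 * s - 1) ∧ Built G S₀ r e₀ h₀ ∧ e₀ < s ∧
      (∀ v ∈ S, v ∈ S₀ ∨ ∃ i, v ∈ P i) ∧ ∑ i, f i + e₀ = e := by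
  obtain ⟨L, S₀, e₀, h₀, h1, h2, h3, h4, h5⟩ := exists_pieces_list H hs
  refine ⟨L.length, fun i => (L.get i).1, fun i => (L.get i).2.1, fun i => (L.get i).2.2.1,
    fun i => (L.get i).2.2.2, S₀, e₀, h₀, fun i => (h1 _ (List.get_mem L i)).1,
    fun i => (h1 _ (List.get_mem L i)).2.1, fun i => (h1 _ (List.get_mem L i)).2.2,
    h2, h3, ?_, ?_⟩
  · intro v hv
    rcases h4 v hv with h | ⟨x, hx, hvx⟩
    · exact Or.inl h
    · obtain ⟨i, rfl⟩ := List.mem_iff_get.1 hx
      exact Or.inr ⟨i, hvx⟩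
  · rw [← h5]
    congr 1
    have h := Fin.sum_univ_fun_getElem L (fun x => x.2.2.1)
    simpa using h

end Pool.Agent.Helper51.BN
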