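import Mathlib

/-! # Project BN, module BN-7b: basic solutions -/

set_option autoImplicit false

namespace Pool.Agent.Helper51.BN

open Finset

section basic

variable {m D : ℕ} (U : Fin m → Finset (Fin D → ℝ)) (a : Fin D → ℝ)

/-- Fractional solutions. -/
private def Feas (x : Fin m → (Fin D → ℝ) → ℝ) : Prop :=
  (∀ i, ∀ u, 0 ≤ x i u) ∧ (∀ i, ∑ u ∈ U i, x i u = 1) ∧
    ∀ j, ∑ i, ∑ u ∈ U i, x i u * u j ≤ a j

open Classical in
/-- The support. -/
private noncomputable def supp (x : Fin m → (Fin D → ℝ) → ℝ) :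
    Finset (Σ _ : Fin m, (Fin D → ℝ)) :=
  (univ.sigma U).filter fun p => 0 < x p.1 p.2

open Classical in
/-- The indices with at least two elements in the support. -/
private noncomputable def bad (x : Fin m → (Fin D → ℝ) → ℝ) : Finset (Fin m) :=
  univ.filter fun i => 1 < ((U i).filter fun u => 0 < x i u).card

private theorem exists_smaller (x : Fin m → (Fin D → ℝ) → ℝ) (hx : Feas U a x)
    (hE : D < (bad U x).card) : ∃ x', Feas U a x' ∧ (supp U x').card < (supp U x).card := by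
  classical
  obtain ⟨h0, h1, h2⟩ := hx
  have hb : ∀ i ∈ bad U x, ∃ u v, u ∈ U i ∧ v ∈ U i ∧ 0 < x i u ∧ 0 < x i v ∧ u ≠ v := by
    intro i hi
    obtain ⟨-, hi⟩ := mem_filter.mp hi
    obtain ⟨u, hu, v, hv, huv⟩ := Finset.one_lt_card.mp hi
    exact ⟨u, v, (mem_filter.mp hu).1, (mem_filter.mp hv).1, (mem_filter.mp hu).2,
      (mem_filter.mp hv).2, huv⟩
  choose! p q hp hq hxp hxq hpq using hb
  have hdep : ¬ LinearIndependent ℝ (fun i : bad U x => p i - q i) := by
    intro hli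
    have := hli.fintype_card_le_finrank
    rw [Fintype.card_coe, Module.finrank_fin_fun] at this
    omega
  rw [Fintype.not_linearIndependent_iff] at hdep
  obtain ⟨c0, hc1, ⟨i0, hi0⟩, hc2⟩ := hdep
  set c : Fin m → ℝ := fun i => if h : i ∈ bad U x then c0 ⟨i, h⟩ else 0 with hc
  have hci0 : c i0 ≠ 0 := by
    rw [hc]
    simp only [hi0, dif_pos]
    exact hc2
  have hcn : ∀ i, i ∉ bad U x → c i = 0 := fun i hi => by rw [hc]; exact dif_neg hi
  have hsum : ∀ j, ∑ i, c i * (p i j - q i j) = 0 := by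
    intro j
    have h3 := congrFun hc1 j
    rw [Finset.sum_apply, Pi.zero_apply] at h3
    rw [← h3, ← Finset.sum_subset (Finset.subset_univ (bad U x)) (fun i _ hi => by
      rw [hcn i hi, zero_mul]), ← Finset.sum_coe_sort (bad U x)]
    refine Finset.sum_congr rfl fun i _ => ?_
    rw [hc]
    simp only [i.2, dif_pos, Pi.smul_apply, Pi.sub_apply, smul_eq_mul]
  set δ : Fin m → (Fin D → ℝ) → ℝ := fun i u =>
    (if u = p i then c i else 0) - (if u = q i then c i else 0) with hδ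
  have hδsum : ∀ i, ∑ u ∈ U i, δ i u = 0 := by
    intro i
    by_cases hi : i ∈ bad U x
    · rw [hδ]
      simp only [Finset.sum_sub_distrib, Finset.sum_ite_eq', hp i hi, hq i hi, if_true, sub_self]
    · refine Finset.sum_eq_zero fun u _ => ?_
      rw [hδ]
      simp [hcn i hi]
  have hδmul : ∀ i j, ∑ u ∈ U i, δ i u * u j = c i * (p i j - q i j) := by
    intro i j
    by_cases hi : i ∈ bad U x
    · rw [hδ]
      simp only [sub_mul, ite_mul, zero_mul, Finset.sum_sub_distrib, Finset.sum_ite_eq', hp i hi,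
        hq i hi, if_true, mul_sub]
    · rw [hcn i hi, zero_mul]
      refine Finset.sum_eq_zero fun u _ => ?_
      rw [hδ]
      simp [hcn i hi]
  have hδsupp : ∀ i u, δ i u ≠ 0 → u ∈ U i ∧ 0 < x i u := by
    intro i u hne
    have hi : i ∈ bad U x := by
      by_contra hi
      apply hne
      rw [hδ]
      simp [hcn i hi]
    by_cases h3 : u = p i
    · rw [h3]
      exact ⟨hp i hi, hxp i hi⟩
    · by_cases h4 : u = q i
      · rw [h4]
        exact ⟨hq i hi, hxq i hi⟩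
      · exfalso
        apply hne
        rw [hδ]
        simp [h3, h4]
  -- the negative coordinates
  set N : Finset (Σ _ : Fin m, (Fin D → ℝ)) := (supp U x).filter fun z => δ z.1 z.2 < 0 with hN
  have hNne : N.Nonempty := by
    rcases lt_or_gt_of_ne hci0 with h3 | h3
    · refine ⟨⟨i0, p i0⟩, mem_filter.mpr ⟨mem_filter.mpr ⟨mem_sigma.mpr
        ⟨mem_univ _, hp i0 hi0⟩, hxp i0 hi0⟩, ?_⟩⟩
      rw [hδ]
      simp [hpq i0 hi0, h3]
    · refine ⟨⟨i0, q i0⟩, mem_filter.mpr ⟨mem_filter.mpr ⟨mem_sigma.mpr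
        ⟨mem_univ _, hq i0 hi0⟩, hxq i0 hi0⟩, ?_⟩⟩
      rw [hδ]
      simp [(hpq i0 hi0).symm, h3]
  obtain ⟨z, hz, hmin⟩ := Finset.exists_min_image N (fun z => x z.1 z.2 / (-δ z.1 z.2)) hNne
  obtain ⟨hz1, hz2⟩ := mem_filter.mp hz
  obtain ⟨hz3, hz4⟩ := mem_filter.mp hz1
  set t : ℝ := x z.1 z.2 / (-δ z.1 z.2) with ht
  have ht0 : 0 < t := div_pos hz4 (neg_pos.mpr hz2)
  have hnn : ∀ i u, 0 ≤ x i u + t * δ i u := by
    intro i u
    rcases lt_or_ge (δ i u) 0 with h3 | h3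
    · obtain ⟨h4, h5⟩ := hδsupp i u h3.ne
      have h6 := hmin ⟨i, u⟩ (mem_filter.mpr ⟨mem_filter.mpr ⟨mem_sigma.mpr
        ⟨mem_univ _, h4⟩, h5⟩, h3⟩)
      have h7 : t ≤ x i u / (-δ i u) := h6
      rw [le_div_iff₀ (neg_pos.mpr h3)] at h7
      linarith
    · have := h0 i u
      have := mul_nonneg ht0.le h3
      linarith
  refine ⟨fun i u => x i u + t * δ i u, ⟨hnn, ?_, ?_⟩, ?_⟩
  · intro i
    rw [Finset.sum_add_distrib, h1 i, ← Finset.mul_sum, hδsum i, mul_zero, add_zero]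
  · intro j
    have h3 : ∑ i, ∑ u ∈ U i, (x i u + t * δ i u) * u j =
        ∑ i, ∑ u ∈ U i, x i u * u j + t * ∑ i, c i * (p i j - q i j) := by
      rw [Finset.mul_sum, ← Finset.sum_add_distrib]
      refine Finset.sum_congr rfl fun i _ => ?_
      rw [← hδmul i j, Finset.mul_sum, ← Finset.sum_add_distrib]
      refine Finset.sum_congr rfl fun u _ => ?_
      ring
    rw [h3, hsum j, mul_zero, add_zero]
    exact h2 j
  · apply Finset.card_lt_card
    rw [Finset.ssubset_iff_of_subset]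
    · refine ⟨z, hz1, fun h3 => ?_⟩
      have h4 : 0 < x z.1 z.2 + t * δ z.1 z.2 := (mem_filter.mp h3).2
      have h5 : x z.1 z.2 + t * δ z.1 z.2 = 0 := by
        rw [ht]
        have : δ z.1 z.2 ≠ 0 := hz2.ne
        field_simp
        ring
      rw [h5] at h4
      exact lt_irrefl _ h4
    · intro y hy
      obtain ⟨hy1, hy2⟩ := mem_filter.mp hy
      replace hy2 : 0 < x y.1 y.2 + t * δ y.1 y.2 := hy2
      refine mem_filter.mpr ⟨hy1, ?_⟩
      by_cases h3 : δ y.1 y.2 = 0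
      · rw [h3, mul_zero, add_zero] at hy2
        exact hy2
      · exact (hδsupp _ _ h3).2

private theorem exists_basic_aux (hpos : ∀ i, ∀ u ∈ U i, ∀ j, 0 ≤ u j) (n : ℕ) :
    ∀ x : Fin m → (Fin D → ℝ) → ℝ, Feas U a x → (supp U x).card = n →
    ∃ (E : Finset (Fin m)) (u : Fin m → Fin D → ℝ), E.card ≤ D ∧ (∀ i, u i ∈ U i) ∧
      ∀ j, ∑ i ∈ univ \ E, u i j ≤ a j := by
  classical
  induction n using Nat.strong_induction_on with
  | _ n ih =>
  intro x hx hn
  rcases lt_or_ge D (bad U x).card with hE | hE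
  · obtain ⟨x', hx', hlt⟩ := exists_smaller U a x hx hE
    exact ih _ (hn ▸ hlt) x' hx' rfl
  obtain ⟨h0, h1, h2⟩ := hx
  have hex : ∀ i, ∃ u ∈ U i, 0 < x i u := by
    intro i
    by_contra hcon
    push Not at hcon
    have := Finset.sum_nonpos fun u hu => hcon u hu
    rw [h1 i] at this
    linarith
  choose u hu hxu using hex
  refine ⟨bad U x, u, hE, hu, fun j => ?_⟩
  have h3 : ∀ i ∈ univ \ bad U x, ∑ w ∈ U i, x i w * w j = u i j := by
    intro i hi
    have h4 : ∀ w ∈ U i, w ≠ u i → x i w = 0 := by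
      intro w hw hne
      by_contra h5
      apply (mem_sdiff.mp hi).2
      refine mem_filter.mpr ⟨mem_univ _, Finset.one_lt_card.mpr ⟨w, mem_filter.mpr
        ⟨hw, lt_of_le_of_ne (h0 i w) (Ne.symm h5)⟩, u i, mem_filter.mpr ⟨hu i, hxu i⟩, hne⟩⟩
    have h5 : x i (u i) = 1 := by
      rw [← h1 i, Finset.sum_eq_single_of_mem (u i) (hu i) h4]
    rw [Finset.sum_eq_single_of_mem (u i) (hu i) (fun w hw hne => by
      rw [h4 w hw hne, zero_mul]), h5, one_mul]
  rw [← Finset.sum_congr rfl h3]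
  refine le_trans (Finset.sum_le_sum_of_subset_of_nonneg Finset.sdiff_subset
    fun i _ _ => ?_) (h2 j)
  exact Finset.sum_nonneg fun w hw => mul_nonneg (h0 i w) (hpos i w hw j)

end basic

/-- Basic solutions: all but `D` of the indices are integral. -/
theorem exists_basic {m D : ℕ} (U : Fin m → Finset (Fin D → ℝ))
    (hpos : ∀ i, ∀ u ∈ U i, ∀ j, 0 ≤ u j) (a : Fin D → ℝ)
    (h : ∃ x : ∀ i : Fin m, (Fin D → ℝ) → ℝ, (∀ i, ∀ u, 0 ≤ x i u) ∧
      (∀ i, ∑ u ∈ U i, x i u = 1) ∧ ∀ j, ∑ i, ∑ u ∈ U i, x i u * u j ≤ a j) :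
    ∃ (E : Finset (Fin m)) (u : Fin m → Fin D → ℝ), E.card ≤ D ∧ (∀ i, u i ∈ U i) ∧
      ∀ j, ∑ i ∈ univ \ E, u i j ≤ a j := by
  obtain ⟨x, hx⟩ := h
  exact exists_basic_aux U a hpos _ x hx rfl

end Pool.Agent.Helper51.BN
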