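import Pool.Agent.Helper51.BN.RoundA
import Pool.Agent.Helper51.BN.RoundB

/-! # Project BN: the rounding lemma -/

set_option autoImplicit false

namespace Pool.Agent.Helper51.BN

open Finset

theorem rounding {m D : ℕ} (U : Fin m → Finset (Fin D → ℝ)) (hU : ∀ i, (U i).Nonempty)
    (hpos : ∀ i, ∀ u ∈ U i, ∀ j, 0 ≤ u j) (a : Fin D → ℝ)
    (h : ∀ y : Fin D → ℝ, (∀ j, 0 ≤ y j) → ∃ u : Fin m → Fin D → ℝ, (∀ i, u i ∈ U i) ∧
      ∑ i, ∑ j, y j * u i j ≤ ∑ j, y j * a j) :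
    ∃ (E : Finset (Fin m)) (u : Fin m → Fin D → ℝ), E.card ≤ D ∧ (∀ i, u i ∈ U i) ∧
      ∀ j, ∑ i ∈ univ \ E, u i j ≤ a j :=
  exists_basic U hpos a (exists_frac U hU a h)

end Pool.Agent.Helper51.BN
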