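import Pool.Agent.Helper51.BN.Defs

/-! # Project BN, module BN-9: from classes of balls to burning sequences -/

set_option autoImplicit false

namespace Pool.Agent.Helper51.BN

open Finset N441b2449

variable {V : Type*} [Fintype V] [DecidableEq V] {G : SimpleGraph V}

/-- A finite set of at most `w` elements can be enumerated by indices below `w`. -/
private theorem enum {α W : Type*} (S : Finset α) {w : ℕ} (hS : S.card ≤ w) (f : α → W) (v0 : W) :
    ∃ c : ℕ → W, ∀ a ∈ S, ∃ t < w, c t = f a := by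
  classical
  refine ⟨fun t => if ht : t < S.toList.length then f (S.toList[t]) else v0, fun a ha => ?_⟩
  obtain ⟨t, ht, hta⟩ := List.getElem_of_mem (Finset.mem_toList.mpr ha)
  refine ⟨t, lt_of_lt_of_le (by simpa using ht) hS, ?_⟩
  simp only [ht, dif_pos]
  rw [hta]

/-- `A` is a family of balls of the classes `j < D` (radius `(j+1) w`), at most `w` in each class,
and `Z` is a set of at most `X` balls of radius `(D+1) w`. -/
theorem burning_le (hG : G.Connected) {D w X : ℕ} {ι : Type*} (I : Finset ι)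
    (C : ι → Finset (V × Fin D)) (hC : ∀ j, ∑ i ∈ I, ((C i).filter fun p => p.2 = j).card ≤ w)
    (Z : Finset V) (hZ : Z.card ≤ X)
    (h : ∀ v, (∃ i ∈ I, ∃ p ∈ C i, G.dist p.1 v ≤ ((p.2 : ℕ) + 1) * w) ∨
      ∃ z ∈ Z, G.dist z v ≤ (D + 1) * w) :
    burningNumber G ≤ (D + 1) * w + X := by
  classical
  obtain ⟨v0⟩ := hG.nonempty
  have h1 : ∀ j : Fin D, ∃ c : ℕ → V, ∀ a ∈ I.sigma (fun i => (C i).filter fun p => p.2 = j),
      ∃ t < w, c t = a.2.1 := by
    intro j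
    have hcard : (I.sigma (fun i => (C i).filter fun p => p.2 = j)).card ≤ w := by
      rw [Finset.card_sigma]; exact hC j
    exact enum _ hcard (fun a => a.2.1) v0
  choose c hc using h1
  obtain ⟨cZ, hcZ⟩ := enum Z hZ (fun z => z) v0
  refine Nat.sInf_le ⟨fun i : Fin ((D + 1) * w + X) =>
    if hρ : ((D + 1) * w + X - 1 - (i : ℕ)) / w - 1 < D ∧
      w ≤ ((D + 1) * w + X - 1 - (i : ℕ)) ∧ ((D + 1) * w + X - 1 - (i : ℕ)) < (D + 1) * w then
      c ⟨((D + 1) * w + X - 1 - (i : ℕ)) / w - 1, hρ.1⟩ (((D + 1) * w + X - 1 - (i : ℕ)) % w)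
    else cZ (((D + 1) * w + X - 1 - (i : ℕ)) - (D + 1) * w), fun v => ?_⟩
  rcases h v with ⟨i, hi, p, hp, hd⟩ | ⟨z, hz, hd⟩
  · obtain ⟨t, ht, hct⟩ := hc p.2 ⟨i, p⟩ (by simp [hi, hp])
    have hj : (p.2 : ℕ) < D := p.2.2
    have hw : 0 < w := by omega
    have hρ1 : ((p.2 : ℕ) + 1) * w + t < (D + 1) * w := by
      have : ((p.2 : ℕ) + 2) * w ≤ (D + 1) * w := Nat.mul_le_mul_right _ (by omega)
      nlinarith
    have hdiv : (((p.2 : ℕ) + 1) * w + t) / w = (p.2 : ℕ) + 1 := by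
      rw [mul_comm, Nat.mul_add_div hw, Nat.div_eq_of_lt ht, add_zero]
    have hmod : (((p.2 : ℕ) + 1) * w + t) % w = t := by
      rw [mul_comm, Nat.mul_add_mod, Nat.mod_eq_of_lt ht]
    have hle : w ≤ ((p.2 : ℕ) + 1) * w + t := by nlinarith
    set ρ := ((p.2 : ℕ) + 1) * w + t with hρ
    have hk : (D + 1) * w + X - 1 - ρ < (D + 1) * w + X := by omega
    have hk2 : (D + 1) * w + X - 1 - ((D + 1) * w + X - 1 - ρ) = ρ := by omega
    refine ⟨⟨(D + 1) * w + X - 1 - ρ, hk⟩, hG.preconnected _ _, ?_⟩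
    have hx : (if hρ : ((D + 1) * w + X - 1 - ((D + 1) * w + X - 1 - ρ)) / w - 1 < D ∧
      w ≤ ((D + 1) * w + X - 1 - ((D + 1) * w + X - 1 - ρ)) ∧
        ((D + 1) * w + X - 1 - ((D + 1) * w + X - 1 - ρ)) < (D + 1) * w then
      c ⟨((D + 1) * w + X - 1 - ((D + 1) * w + X - 1 - ρ)) / w - 1, hρ.1⟩
        (((D + 1) * w + X - 1 - ((D + 1) * w + X - 1 - ρ)) % w)
      else cZ (((D + 1) * w + X - 1 - ((D + 1) * w + X - 1 - ρ)) - (D + 1) * w)) = p.1 := by
      rw [dif_pos (by rw [hk2, hdiv]; exact ⟨by omega, hle, hρ1⟩)]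
      rw [← hct]
      have e1 : (⟨((D + 1) * w + X - 1 - ((D + 1) * w + X - 1 - ρ)) / w - 1,
          by rw [hk2, hdiv]; omega⟩ : Fin D) = p.2 := by
        apply Fin.ext
        simp only [hk2, hdiv]
        omega
      rw [e1, hk2, hmod]
    simp only at hx ⊢
    rw [hx]
    have : G.dist p.1 v ≤ ρ := by omega
    omega
  · obtain ⟨t, ht, hct⟩ := hcZ z hz
    set ρ := (D + 1) * w + t with hρ
    have hk : (D + 1) * w + X - 1 - ρ < (D + 1) * w + X := by omega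
    have hk2 : (D + 1) * w + X - 1 - ((D + 1) * w + X - 1 - ρ) = ρ := by omega
    refine ⟨⟨(D + 1) * w + X - 1 - ρ, hk⟩, hG.preconnected _ _, ?_⟩
    have hx : (if hρ : ((D + 1) * w + X - 1 - ((D + 1) * w + X - 1 - ρ)) / w - 1 < D ∧
      w ≤ ((D + 1) * w + X - 1 - ((D + 1) * w + X - 1 - ρ)) ∧
        ((D + 1) * w + X - 1 - ((D + 1) * w + X - 1 - ρ)) < (D + 1) * w then
      c ⟨((D + 1) * w + X - 1 - ((D + 1) * w + X - 1 - ρ)) / w - 1, hρ.1⟩
        (((D + 1) * w + X - 1 - ((D + 1) * w + X - 1 - ρ)) % w)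
      else cZ (((D + 1) * w + X - 1 - ((D + 1) * w + X - 1 - ρ)) - (D + 1) * w)) = z := by
      rw [dif_neg (by rw [hk2]; omega), hk2, ← hct]
      congr 1
      omega
    simp only at hx ⊢
    rw [hx]
    omega

end Pool.Agent.Helper51.BN
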