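import Pool.Agent.Helper51.BN.ProfC

/-! # Project BN, module BN-8a: spanning trees -/

set_option autoImplicit false

namespace Pool.Agent.Helper51.BN

open Finset

variable {V : Type*} [Fintype V] [DecidableEq V] {G : SimpleGraph V}

omit [Fintype V] in
/-- A new leaf can be attached at any vertex. -/
private theorem add_leaf {S : Finset V} {r : V} {e h : ℕ} (H : Built G S r e h) {v : V} :
    ∀ u ∈ S, G.Adj u v → ∃ h', Built G (insert v S) r (e + 1) h' := by
  induction H with
  | pt r =>
    intro u hu huv
    rw [mem_singleton] at hu
    subst hu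
    refine ⟨1, ?_⟩
    have h1 := Built.ext u (Built.pt (G := G) v) huv
    rwa [show insert u ({v} : Finset V) = insert v {u} from Finset.pair_comm u v] at h1
  | @ext S c e h r H hadj ih =>
    intro u hu huv
    rcases mem_insert.1 hu with rfl | hu
    · have h1 := Built.join (Built.ext u H hadj) (Built.ext u (Built.pt (G := G) v) huv)
      have h2 : insert u S ∪ insert u {v} = insert v (insert u S) := by
        ext x
        simp only [mem_union, mem_insert, mem_singleton]
        tauto
      rw [h2] at h1
      exact ⟨_, h1⟩
    · obtain ⟨h', h1⟩ := ih u hu huv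
      refine ⟨h' + 1, ?_⟩
      rw [Finset.insert_comm]
      exact Built.ext r h1 hadj
  | @join S T r e f h k H1 H2 ih1 ih2 =>
    intro u hu huv
    rcases mem_union.1 hu with hu | hu
    · obtain ⟨h', h1⟩ := ih1 u hu huv
      refine ⟨max h' k, ?_⟩
      have h2 := Built.join h1 H2
      rw [insert_union, show e + 1 + f = e + f + 1 by omega] at h2
      exact h2
    · obtain ⟨h', h1⟩ := ih2 u hu huv
      refine ⟨max h h', ?_⟩
      have h2 := Built.join H1 h1
      rw [union_insert, show e + (f + 1) = e + f + 1 by omega] at h2
      exact h2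

/-- A connected graph has a spanning tree. -/
theorem exists_built (hG : G.Connected) :
    ∃ (r : V) (h : ℕ), Built G univ r (Fintype.card V - 1) h := by
  have key : ∀ e, e < Fintype.card V →
      ∃ (S : Finset V) (r : V) (h : ℕ), Built G S r e h ∧ S.card = e + 1 := by
    intro e
    induction e with
    | zero =>
      intro _
      obtain ⟨r⟩ := hG.nonempty
      exact ⟨{r}, r, 0, Built.pt r, by simp⟩
    | succ e ih =>
      intro he
      obtain ⟨S, r, h, H, hS⟩ := ih (by omega)
      have h1 : ∃ v, v ∉ S := by
        by_contra hcon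
        push Not at hcon
        have h2 : S = univ := Finset.eq_univ_iff_forall.2 hcon
        rw [h2, card_univ] at hS
        omega
      obtain ⟨v, hv⟩ := h1
      obtain ⟨p⟩ := hG.preconnected r v
      obtain ⟨d, -, hd1, hd2⟩ := p.exists_boundary_dart (S : Set V) (by exact_mod_cast H.mem)
        (by exact_mod_cast hv)
      have hd1' : d.fst ∈ S := by exact_mod_cast hd1
      have hd2' : d.snd ∉ S := by exact_mod_cast hd2
      obtain ⟨h', H'⟩ := add_leaf H d.fst hd1' d.adj
      exact ⟨insert d.snd S, r, h', H', by rw [card_insert_of_notMem hd2', hS]⟩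
  have hpos : 0 < Fintype.card V := Fintype.card_pos_iff.2 hG.nonempty
  obtain ⟨S, r, h, H, hS⟩ := key (Fintype.card V - 1) (by omega)
  have h1 : S = univ := by
    rw [← Finset.card_eq_iff_eq_univ, hS]
    omega
  rw [h1] at H
  exact ⟨r, h, H⟩

end Pool.Agent.Helper51.BN
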