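import Pool.Agent.Helper51.BN.Classes
import Pool.Agent.Helper51.BN.Round
import Pool.Agent.Helper51.BN.Span
import Pool.Agent.Helper51.BN.Pieces
import Pool.Agent.Helper51.BN.Greedy
import Pool.Agent.Helper51.BN.Seq
import Pool.Agent.Helper51.BN.Num

/-! # Project BN: assembly -/

set_option autoImplicit false

namespace Pool.Agent.Helper51.BN

open Finset N441b2449

theorem usage_sum {V : Type*} [DecidableEq V] {D : ℕ} (y : Fin D → ℝ)
    (C : Finset (V × Fin D)) :
    ∑ j, y j * ((C.filter fun p => p.2 = j).card : ℝ) = ∑ p ∈ C, y p.2 := by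
  rw [← Finset.sum_fiberwise C (fun p => p.2) (fun p => y p.2)]
  apply Finset.sum_congr rfl
  intro j _
  rw [Finset.sum_congr rfl (g := fun _ => y j)]
  · rw [Finset.sum_const, nsmul_eq_mul, mul_comm]
  · intro p hp
    rw [(Finset.mem_filter.1 hp).2]

theorem main {V : Type*} [Fintype V] (G : SimpleGraph V) (hG : G.Connected) {D w : ℕ}
    (hD : 0 < D) (hw : 0 < w) (hn : Fintype.card V ≤ (w * D) ^ 2) :
    burningNumber G ≤ (D + 1) * w + (4 * D + 2) := by
  classical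
  obtain ⟨r, h, H⟩ := exists_built hG
  obtain ⟨m, P, q, f, k, S₀, e₀, h₀, hP, hf1, hf2, H0, he0, hcov, hsum⟩ :=
    exists_pieces H (s := 2 * (w * D) + 1) (by omega)
  have hDr : (0 : ℝ) < D := by exact_mod_cast hD
  have hwr : (0 : ℝ) < w := by exact_mod_cast hw
  let CC : Fin m → Finset (Finset (V × Fin D)) := fun i => univ.filter fun C =>
    ∀ v ∈ P i, ∃ p ∈ C, G.dist p.1 v ≤ ((p.2 : ℕ) + 1) * w
  let us : Finset (V × Fin D) → Fin D → ℝ := fun C j => ((C.filter fun p => p.2 = j).card : ℝ)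
  let U : Fin m → Finset (Fin D → ℝ) := fun i => (CC i).image us
  have hcover : ∀ y : Fin D → ℝ, (∀ j, 0 ≤ y j) → ∀ i, ∃ C ∈ CC i,
      (w * D ^ 2 : ℝ) * ∑ p ∈ C, y p.2 ≤ f i * ∑ j, y j := by
    intro y hy i
    obtain ⟨C, h1, h2⟩ := exists_class_cover hG hD hw y hy (hP i) (hf1 i)
    exact ⟨C, Finset.mem_filter.2 ⟨Finset.mem_univ _, h1⟩, h2⟩
  have hsumf : (∑ i, (f i : ℝ)) ≤ (w * D : ℝ) ^ 2 := by
    have h1 : ∑ i, f i ≤ (w * D) ^ 2 := by omega
    exact_mod_cast h1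
  obtain ⟨E, u, hE, hu, hle⟩ := rounding U (by
      intro i
      obtain ⟨C, hC, _⟩ := hcover (fun _ => 0) (fun _ => le_rfl) i
      exact ⟨us C, Finset.mem_image_of_mem _ hC⟩) (by
      intro i u hu j
      obtain ⟨C, _, rfl⟩ := Finset.mem_image.1 hu
      exact Nat.cast_nonneg _) (fun _ => (w : ℝ)) (by
      intro y hy
      choose C hC hC2 using hcover y hy
      refine ⟨fun i => us (C i), fun i => Finset.mem_image_of_mem _ (hC i), ?_⟩
      have h1 : ∀ i, ∑ j, y j * us (C i) j = ∑ p ∈ C i, y p.2 := fun i => usage_sum y (C i)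
      rw [Finset.sum_congr rfl fun i _ => h1 i]
      have h2 : (w * D ^ 2 : ℝ) * ∑ i, ∑ p ∈ C i, y p.2 ≤ (w * D ^ 2 : ℝ) * (w * ∑ j, y j) := by
        rw [Finset.mul_sum]
        refine (Finset.sum_le_sum fun i _ => hC2 i).trans ?_
        rw [← Finset.sum_mul]
        have h3 : 0 ≤ ∑ j, y j := Finset.sum_nonneg fun j _ => hy j
        calc (∑ i, (f i : ℝ)) * ∑ j, y j ≤ (w * D : ℝ) ^ 2 * ∑ j, y j :=
              mul_le_mul_of_nonneg_right hsumf h3
          _ = _ := by ring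
      have h4 := le_of_mul_le_mul_left h2 (by positivity)
      rw [← Finset.sum_mul, mul_comm]
      exact h4)
  have hex : ∀ i, ∃ C ∈ CC i, us C = u i := fun i => Finset.mem_image.1 (hu i)
  choose C hC hCu using hex
  have hgr : ∀ i, ∃ Z : Finset V, Z.card ≤ 4 ∧ ∀ v ∈ P i, ∃ z ∈ Z, G.dist z v ≤ (D + 1) * w := by
    intro i
    obtain ⟨Z, hZ, hZ2⟩ := exists_greedy hG (hP i) ((D + 1) * w)
    refine ⟨Z, hZ.trans ?_, hZ2⟩
    have h1 : f i / ((D + 1) * w + 1) < 4 := by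
      rw [Nat.div_lt_iff_lt_mul (by positivity)]
      have h2 := hf2 i
      have h3 : (D + 1) * w = w * D + w := by ring
      rw [h3]
      omega
    omega
  choose Z hZ hZ2 using hgr
  obtain ⟨Z0, hZ0, hZ02⟩ : ∃ Z : Finset V, Z.card ≤ 2 ∧
      ∀ v ∈ S₀, ∃ z ∈ Z, G.dist z v ≤ (D + 1) * w := by
    obtain ⟨Z, hZ, hZ2⟩ := exists_greedy hG H0 ((D + 1) * w)
    refine ⟨Z, hZ.trans ?_, hZ2⟩
    have h1 : e₀ / ((D + 1) * w + 1) < 2 := by
      rw [Nat.div_lt_iff_lt_mul (by positivity)]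
      have h3 : (D + 1) * w = w * D + w := by ring
      rw [h3]
      omega
    omega
  refine burning_le hG (univ \ E) C ?_ (E.biUnion Z ∪ Z0) ?_ ?_
  · intro j
    have h1 := hle j
    have h2 : ∑ i ∈ univ \ E, u i j =
        ((∑ i ∈ univ \ E, ((C i).filter fun p => p.2 = j).card : ℕ) : ℝ) := by
      rw [Nat.cast_sum]
      apply Finset.sum_congr rfl
      intro i _
      rw [← hCu i]
    rw [h2] at h1
    exact_mod_cast h1
  · have h1 : (E.biUnion Z).card ≤ 4 * D := by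
      refine Finset.card_biUnion_le.trans ?_
      refine (Finset.sum_le_card_nsmul E _ 4 fun i _ => hZ i).trans ?_
      rw [smul_eq_mul]
      omega
    have h2 := Finset.card_union_le (E.biUnion Z) Z0
    omega
  · intro v
    rcases hcov v (Finset.mem_univ v) with hv | ⟨i, hv⟩
    · right
      obtain ⟨z, hz, hz2⟩ := hZ02 v hv
      exact ⟨z, Finset.mem_union_right _ hz, hz2⟩
    · by_cases hi : i ∈ E
      · right
        obtain ⟨z, hz, hz2⟩ := hZ2 i v hv
        exact ⟨z, Finset.mem_union_left _ (Finset.mem_biUnion.2 ⟨i, hi, hz⟩), hz2⟩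
      · left
        obtain ⟨p, hp, hp2⟩ := (Finset.mem_filter.1 (hC i)).2 v hv
        exact ⟨i, Finset.mem_sdiff.2 ⟨Finset.mem_univ _, hi⟩, p, hp, hp2⟩

theorem main' {V : Type*} [Fintype V] (G : SimpleGraph V) (hG : G.Connected) :
    (burningNumber G : ℝ) ≤ Real.sqrt (Fintype.card V) +
      6 * (Fintype.card V : ℝ) ^ (1 / 4 : ℝ) + 8 := by
  have := hG.nonempty
  obtain ⟨D, w, hD, hw, h1, h2⟩ := exists_params (Fintype.card V) Fintype.card_pos
  exact le_trans (by exact_mod_cast main G hG hD hw h1) h2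

end Pool.Agent.Helper51.BN
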