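import Pool.Agent.Helper51.BN.Defs

/-! # Project BN, module BN-1c: rooted trees -/

set_option autoImplicit false
set_option linter.unusedSectionVars false

namespace Pool.Agent.Helper51.BN

open Finset

variable {V : Type*} [Fintype V] [DecidableEq V] {G : SimpleGraph V}

theorem Built.mem {S : Finset V} {r : V} {e h : ℕ} (H : Built G S r e h) : r ∈ S := by
  induction H with
  | pt r => exact Finset.mem_singleton_self r
  | ext r _ _ _ => exact Finset.mem_insert_self r _
  | join _ _ ih _ => exact Finset.mem_union_left _ ih

theorem Built.dist_le (hG : G.Connected) {S : Finset V} {r : V} {e h : ℕ}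
    (H : Built G S r e h) : ∀ v ∈ S, G.dist r v ≤ h := by
  induction H with
  | pt r =>
    intro v hv
    rw [Finset.mem_singleton] at hv
    subst hv
    simp
  | @ext S c e h r _ hadj ih =>
    intro v hv
    rcases Finset.mem_insert.1 hv with rfl | hv
    · simp
    · have h1 : G.dist r v ≤ G.dist r c + G.dist c v := hG.dist_triangle
      have h2 : G.dist r c = 1 := SimpleGraph.dist_eq_one_iff_adj.2 hadj
      have h3 := ih v hv
      omega
  | join _ _ ih1 ih2 =>
    intro v hv
    rcases Finset.mem_union.1 hv with hv | hv
    · exact (ih1 v hv).trans (le_max_left _ _)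
    · exact (ih2 v hv).trans (le_max_right _ _)

theorem Built.le_edges {S : Finset V} {r : V} {e h : ℕ} (H : Built G S r e h) : h ≤ e := by
  induction H with
  | pt r => exact le_rfl
  | ext r _ _ ih => exact Nat.succ_le_succ ih
  | join _ _ ih1 ih2 => omega

end Pool.Agent.Helper51.BN
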