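import Pool.Agent.Helper51.BN.Defs

/-! # Project BN, module BN-1a: properties of the profile F -/

set_option autoImplicit false

namespace Pool.Agent.Helper51.BN

open Finset

variable {V : Type*} [Fintype V] [DecidableEq V] {G : SimpleGraph V}

private theorem cost_nonneg' {g : ℕ → ℝ} (hg : ∀ i, 0 ≤ g i) (C : Finset (V × ℕ)) :
    0 ≤ cost g C := Finset.sum_nonneg fun _ _ => hg _

private theorem bddBelow' {g : ℕ → ℝ} (hg : ∀ i, 0 ≤ g i) (b : ℕ) (S : Finset V) (r : V)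
    (s : ℤ) :
    BddBelow {x | ∃ C : Finset (V × ℕ), (∀ p ∈ C, p.2 ≤ b) ∧ Good G S r s C ∧ cost g C = x} := by
  refine ⟨0, ?_⟩
  rintro x ⟨C, -, -, rfl⟩
  exact cost_nonneg' hg C

theorem F_le {g : ℕ → ℝ} (hg : ∀ i, 0 ≤ g i) {b : ℕ} {S : Finset V} {r : V} {s : ℤ}
    {C : Finset (V × ℕ)} (hb : ∀ p ∈ C, p.2 ≤ b) (hC : Good G S r s C) :
    F G g b S r s ≤ cost g C :=
  csInf_le (bddBelow' hg b S r s) ⟨C, hb, hC, rfl⟩

/-- The infimum is attained. -/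
theorem exists_F {g : ℕ → ℝ} (hg : ∀ i, 0 ≤ g i) {b : ℕ} (S : Finset V) (r : V) {s : ℤ}
    (hs : s ≤ b) :
    ∃ C : Finset (V × ℕ), (∀ p ∈ C, p.2 ≤ b) ∧ Good G S r s C ∧ cost g C = F G g b S r s := by
  have hfin : {x | ∃ C : Finset (V × ℕ), (∀ p ∈ C, p.2 ≤ b) ∧ Good G S r s C ∧
      cost g C = x}.Finite := by
    have h1 : {C : Finset (V × ℕ) | ∀ p ∈ C, p.2 ≤ b}.Finite := by
      refine ((Finset.univ ×ˢ Finset.range (b + 1) : Finset (V × ℕ)).powerset.finite_toSet).subset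
        ?_
      intro C hC
      rw [Finset.mem_coe, Finset.mem_powerset]
      intro p hp
      rw [Finset.mem_product]
      exact ⟨Finset.mem_univ _, Finset.mem_range.2 (Nat.lt_succ_of_le (hC p hp))⟩
    refine (h1.image (cost g)).subset ?_
    rintro x ⟨C, hC, -, rfl⟩
    exact ⟨C, hC, rfl⟩
  have hne : {x | ∃ C : Finset (V × ℕ), (∀ p ∈ C, p.2 ≤ b) ∧ Good G S r s C ∧
      cost g C = x}.Nonempty := by
    refine ⟨_, insert (r, b) (S.image fun v => (v, 0)), ?_, ⟨?_, ?_⟩, rfl⟩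
    · intro p hp
      rw [Finset.mem_insert, Finset.mem_image] at hp
      rcases hp with rfl | ⟨v, -, rfl⟩
      · exact le_rfl
      · exact Nat.zero_le _
    · intro v hv
      refine Or.inl ⟨(v, 0), Finset.mem_insert_of_mem (Finset.mem_image_of_mem _ hv), ?_⟩
      simp
    · intro _
      refine ⟨(r, b), Finset.mem_insert_self _ _, ?_⟩
      simpa using hs
  obtain ⟨C, h1, h2, h3⟩ := hne.csInf_mem hfin
  exact ⟨C, h1, h2, h3⟩

theorem F_nonneg {g : ℕ → ℝ} (hg : ∀ i, 0 ≤ g i) (b : ℕ) (S : Finset V) (r : V) (s : ℤ) :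
    0 ≤ F G g b S r s := by
  refine Real.sInf_nonneg ?_
  rintro x ⟨C, -, -, rfl⟩
  exact cost_nonneg' hg C

theorem F_mono {g : ℕ → ℝ} (hg : ∀ i, 0 ≤ g i) {b : ℕ} (S : Finset V) (r : V) {s t : ℤ}
    (hst : s ≤ t) (ht : t ≤ b) : F G g b S r s ≤ F G g b S r t := by
  obtain ⟨C, h1, ⟨h2, h3⟩, h4⟩ := exists_F (G := G) hg S r ht
  rw [← h4]
  refine F_le hg h1 ⟨fun v hv => ?_, fun hs => ?_⟩
  · rcases h2 v hv with h | h
    · exact Or.inl h
    · exact Or.inr (by omega)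
  · obtain ⟨p, hp, hp'⟩ := h3 (hs.trans hst)
    exact ⟨p, hp, by omega⟩

/-- One ball at the root. -/
theorem F_ball {g : ℕ → ℝ} (hg : ∀ i, 0 ≤ g i) {b h : ℕ} {S : Finset V} {r : V}
    (hS : ∀ v ∈ S, G.dist r v ≤ h) {m : ℕ} (hm : h ≤ m) (hmb : m ≤ b) :
    F G g b S r m ≤ g m := by
  have h1 : cost g ({(r, m)} : Finset (V × ℕ)) = g m := by
    unfold cost
    rw [Finset.sum_singleton]
  rw [← h1]
  refine F_le hg ?_ ⟨fun v hv => ?_, fun _ => ?_⟩
  · intro p hp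
    rw [Finset.mem_singleton] at hp
    rw [hp]
    exact hmb
  · exact Or.inl ⟨(r, m), Finset.mem_singleton_self _, (hS v hv).trans hm⟩
  · refine ⟨(r, m), Finset.mem_singleton_self _, ?_⟩
    simp

theorem F_zero {g : ℕ → ℝ} (hg : ∀ i, 0 ≤ g i) {b h : ℕ} {S : Finset V} {r : V}
    (hS : ∀ v ∈ S, G.dist r v ≤ h) {s : ℤ} (hs : s < -(h : ℤ)) :
    F G g b S r s = 0 := by
  refine le_antisymm ?_ (F_nonneg hg b S r s)
  have h1 : cost g (∅ : Finset (V × ℕ)) = 0 := Finset.sum_empty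
  rw [← h1]
  refine F_le hg (by simp) ⟨fun v hv => ?_, fun h0 => ?_⟩
  · have := hS v hv
    exact Or.inr (by omega)
  · omega

end Pool.Agent.Helper51.BN
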