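import Pool.Agent.Helper51.BN.ProfA

/-! # Project BN, module BN-1b: stems and joins -/

set_option autoImplicit false

namespace Pool.Agent.Helper51.BN

open Finset

variable {V : Type*} [Fintype V] [DecidableEq V] {G : SimpleGraph V}

private theorem cost_union_le {g : ℕ → ℝ} (hg : ∀ i, 0 ≤ g i) (C D : Finset (V × ℕ)) :
    cost g (C ∪ D) ≤ cost g C + cost g D := by
  have h := Finset.sum_union_inter (s₁ := C) (s₂ := D) (f := fun p : V × ℕ => g p.2)
  have h2 : 0 ≤ ∑ p ∈ C ∩ D, g p.2 := Finset.sum_nonneg fun p _ => hg p.2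
  unfold cost
  linarith

private theorem dist_adj (hG : G.Connected) {r c : V} (h : G.Adj r c) (v : V) :
    G.dist r v ≤ G.dist c v + 1 := by
  have h1 := hG.dist_triangle (u := r) (v := c) (w := v)
  have h2 : G.dist r c = 1 := SimpleGraph.dist_eq_one_iff_adj.mpr h
  omega

private theorem dist_adj' (hG : G.Connected) {r c : V} (h : G.Adj r c) (v : V) :
    G.dist v r ≤ G.dist v c + 1 := by
  rw [G.dist_comm (u := v) (v := r), G.dist_comm (u := v) (v := c)]
  exact dist_adj hG h v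

theorem F_ext (hG : G.Connected) {g : ℕ → ℝ} (hg : ∀ i, 0 ≤ g i) {b : ℕ} {S : Finset V}
    {c r : V} (hc : c ∈ S) (h : G.Adj r c) {s : ℤ} (hs : s + 1 ≤ b) :
    F G g b (insert r S) r s ≤ F G g b S c (s + 1) := by
  obtain ⟨C, hCb, hCg, hCc⟩ := exists_F (G := G) hg S c (s := s + 1) hs
  rw [← hCc]
  refine F_le hg hCb ⟨?_, ?_⟩
  · intro v hv
    rcases Finset.mem_insert.mp hv with rfl | hv
    · by_cases hs0 : s < 0
      · right
        simpa using hs0
      · left
        push Not at hs0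
        obtain ⟨p, hp, hpd⟩ := hCg.2 (by omega)
        refine ⟨p, hp, ?_⟩
        have := dist_adj' hG h p.1
        omega
    · rcases hCg.1 v hv with h1 | h1
      · exact Or.inl h1
      · right
        have := dist_adj hG h v
        omega
  · intro hs0
    obtain ⟨p, hp, hpd⟩ := hCg.2 (by omega)
    refine ⟨p, hp, ?_⟩
    have := dist_adj' hG h p.1
    omega

theorem F_top (hG : G.Connected) {g : ℕ → ℝ} (hg : ∀ i, 0 ≤ g i) {b : ℕ} {S : Finset V}
    {c r : V} (h : G.Adj r c) :
    F G g b (insert r S) r b ≤ g b + F G g b S c (-(b : ℤ)) := by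
  obtain ⟨C, hCb, hCg, hCc⟩ := exists_F (G := G) hg S c (s := -(b : ℤ)) (by omega)
  have hcost : cost g (insert (r, b) C) ≤ g b + cost g C := by
    have h1 := cost_union_le hg ({(r, b)} : Finset (V × ℕ)) C
    rw [← Finset.insert_eq] at h1
    have h2 : cost g ({(r, b)} : Finset (V × ℕ)) = g b := by simp [cost]
    rw [h2] at h1
    exact h1
  rw [← hCc]
  refine le_trans (F_le hg ?_ ⟨?_, ?_⟩) hcost
  · intro p hp
    rcases Finset.mem_insert.mp hp with rfl | hp
    · exact le_refl _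
    · exact hCb p hp
  · intro v hv
    left
    rcases Finset.mem_insert.mp hv with rfl | hv
    · exact ⟨(v, b), Finset.mem_insert_self _ _, by simp⟩
    · rcases hCg.1 v hv with ⟨p, hp, hpd⟩ | h1
      · exact ⟨p, Finset.mem_insert_of_mem hp, hpd⟩
      · refine ⟨(r, b), Finset.mem_insert_self _ _, ?_⟩
        have h2 := dist_adj hG h v
        show G.dist r v ≤ b
        omega
  · intro _
    exact ⟨(r, b), Finset.mem_insert_self _ _, by simp⟩

theorem F_join_neg {g : ℕ → ℝ} (hg : ∀ i, 0 ≤ g i) {b : ℕ} (S T : Finset V) (r : V) {s : ℤ}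
    (hs : s < 0) :
    F G g b (S ∪ T) r s ≤ F G g b S r s + F G g b T r s := by
  obtain ⟨C, hCb, hCg, hCc⟩ := exists_F (G := G) (b := b) hg S r (s := s) (by omega)
  obtain ⟨D, hDb, hDg, hDc⟩ := exists_F (G := G) (b := b) hg T r (s := s) (by omega)
  rw [← hCc, ← hDc]
  refine le_trans (F_le hg ?_ ⟨?_, ?_⟩) (cost_union_le hg C D)
  · intro p hp
    rcases Finset.mem_union.mp hp with hp | hp
    · exact hCb p hp
    · exact hDb p hp
  · intro v hv
    rcases Finset.mem_union.mp hv with hv | hv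
    · rcases hCg.1 v hv with ⟨p, hp, hpd⟩ | h1
      · exact Or.inl ⟨p, Finset.mem_union_left _ hp, hpd⟩
      · exact Or.inr h1
    · rcases hDg.1 v hv with ⟨p, hp, hpd⟩ | h1
      · exact Or.inl ⟨p, Finset.mem_union_right _ hp, hpd⟩
      · exact Or.inr h1
  · intro h0
    omega

theorem F_join_nonneg (hG : G.Connected) {g : ℕ → ℝ} (hg : ∀ i, 0 ≤ g i) {b : ℕ}
    (S T : Finset V) (r : V) {m : ℕ} (hm : m ≤ b) :
    F G g b (S ∪ T) r m ≤ F G g b S r m + F G g b T r (-(m : ℤ) - 1) := by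
  obtain ⟨C, hCb, hCg, hCc⟩ := exists_F (G := G) (b := b) hg S r (s := (m : ℤ)) (by omega)
  obtain ⟨D, hDb, hDg, hDc⟩ := exists_F (G := G) (b := b) hg T r (s := -(m : ℤ) - 1) (by omega)
  rw [← hCc, ← hDc]
  obtain ⟨q, hq, hqd⟩ := hCg.2 (by omega)
  refine le_trans (F_le hg ?_ ⟨?_, ?_⟩) (cost_union_le hg C D)
  · intro p hp
    rcases Finset.mem_union.mp hp with hp | hp
    · exact hCb p hp
    · exact hDb p hp
  · intro v hv
    rcases Finset.mem_union.mp hv with hv | hv
    · rcases hCg.1 v hv with ⟨p, hp, hpd⟩ | h1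
      · exact Or.inl ⟨p, Finset.mem_union_left _ hp, hpd⟩
      · exact Or.inr h1
    · rcases hDg.1 v hv with ⟨p, hp, hpd⟩ | h1
      · exact Or.inl ⟨p, Finset.mem_union_right _ hp, hpd⟩
      · left
        refine ⟨q, Finset.mem_union_left _ hq, ?_⟩
        have h2 := hG.dist_triangle (u := q.1) (v := r) (w := v)
        omega
  · intro _
    exact ⟨q, Finset.mem_union_left _ hq, hqd⟩

end Pool.Agent.Helper51.BN
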