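import Mathlib

/-! # Project BN, module BN-7a: linear programming duality -/

set_option autoImplicit false

namespace Pool.Agent.Helper51.BN

open Finset

open scoped Pointwise in
private theorem mem_upper {D : ℕ} (A : Finset (Fin D → ℝ)) (hA : A.Nonempty) (a : Fin D → ℝ)
    (h : ∀ y : Fin D → ℝ, (∀ j, 0 ≤ y j) → ∃ s ∈ A, ∑ j, y j * s j ≤ ∑ j, y j * a j) :
    ∃ w ∈ convexHull ℝ (A : Set (Fin D → ℝ)), ∀ j, w j ≤ a j := by
  classical
  set X : Set (Fin D → ℝ) := convexHull ℝ (A : Set (Fin D → ℝ)) + {z | 0 ≤ z} with hX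
  have hC : IsCompact (convexHull ℝ (A : Set (Fin D → ℝ))) :=
    Set.Finite.isCompact_convexHull (𝕜 := ℝ) (Finset.finite_toSet A)
  have hcl : IsClosed X := by
    refine IsClosed.add_left_of_isCompact ?_ hC
    exact isClosed_le continuous_const continuous_id
  have hcv : Convex ℝ X := by
    refine (convex_convexHull ℝ _).add ?_
    exact convex_Ici (0 : Fin D → ℝ)
  by_cases ha : a ∈ X
  · obtain ⟨w, hw, z, hz, rfl⟩ := ha
    refine ⟨w, hw, fun j => ?_⟩
    have : (0 : ℝ) ≤ z j := hz j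
    simpa using this
  · exfalso
    obtain ⟨f, c, hfa, hfX⟩ := geometric_hahn_banach_point_closed hcv hcl ha
    have hf : ∀ v : Fin D → ℝ, f v = ∑ j, f (Pi.single j 1) * v j := by
      intro v
      have h1 : v = ∑ j, v j • (Pi.single j (1 : ℝ) : Fin D → ℝ) := by
        ext k
        simp [Finset.sum_apply, Pi.single_apply]
      conv_lhs => rw [h1]
      rw [map_sum]
      refine Finset.sum_congr rfl fun j _ => ?_
      rw [map_smul, smul_eq_mul, mul_comm]
    obtain ⟨b, hb⟩ := hA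
    have hbX : ∀ z : Fin D → ℝ, 0 ≤ z → b + z ∈ X := fun z hz =>
      Set.add_mem_add (subset_convexHull ℝ _ hb) hz
    have hy : ∀ j, 0 ≤ f (Pi.single j 1) := by
      intro j
      by_contra hneg
      push Not at hneg
      have hb0 : c < f b := by
        have := hfX _ (hbX 0 le_rfl)
        simpa using this
      set t : ℝ := (f b - c) / (-f (Pi.single j 1)) with ht
      have ht0 : 0 ≤ t := div_nonneg (by linarith) (by linarith)
      have h2 := hfX _ (hbX (t • (Pi.single j (1 : ℝ) : Fin D → ℝ)) (by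
        intro k
        simp only [Pi.zero_apply, Pi.smul_apply, Pi.single_apply, smul_eq_mul]
        split_ifs <;> simp [ht0]))
      rw [map_add, map_smul, smul_eq_mul] at h2
      have h3 : t * f (Pi.single j 1) = -(f b - c) := by
        rw [ht]
        have : f (Pi.single j 1) ≠ 0 := ne_of_lt hneg
        field_simp
      rw [h3] at h2
      linarith
    obtain ⟨s, hs, hle⟩ := h (fun j => f (Pi.single j 1)) hy
    have hsX : s ∈ X := by
      have h5 : s + (0 : Fin D → ℝ) ∈ X :=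
        Set.add_mem_add (subset_convexHull ℝ _ hs) (le_refl (0 : Fin D → ℝ))
      simpa using h5
    have h4 := hfX _ hsX
    rw [hf s] at h4
    rw [hf a] at hfa
    linarith

/-- Linear programming duality: there is a fractional solution. -/
theorem exists_frac {m D : ℕ} (U : Fin m → Finset (Fin D → ℝ)) (hU : ∀ i, (U i).Nonempty)
    (a : Fin D → ℝ)
    (h : ∀ y : Fin D → ℝ, (∀ j, 0 ≤ y j) → ∃ u : Fin m → Fin D → ℝ, (∀ i, u i ∈ U i) ∧
      ∑ i, ∑ j, y j * u i j ≤ ∑ j, y j * a j) :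
    ∃ x : ∀ i : Fin m, (Fin D → ℝ) → ℝ, (∀ i, ∀ u, 0 ≤ x i u) ∧ (∀ i, ∑ u ∈ U i, x i u = 1) ∧
      ∀ j, ∑ i, ∑ u ∈ U i, x i u * u j ≤ a j := by
  classical
  set P := Fintype.piFinset U with hP
  set A : Finset (Fin D → ℝ) := P.image (fun u => ∑ i, u i) with hA
  have hPne : P.Nonempty := by
    choose u hu using hU
    exact ⟨u, Fintype.mem_piFinset.2 hu⟩
  have hAne : A.Nonempty := hPne.image _
  obtain ⟨w, hw, hwa⟩ := mem_upper A hAne a (by
    intro y hy
    obtain ⟨u, hu, hle⟩ := h y hy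
    refine ⟨∑ i, u i, Finset.mem_image.2 ⟨u, Fintype.mem_piFinset.2 hu, rfl⟩, ?_⟩
    refine le_trans (le_of_eq ?_) hle
    rw [Finset.sum_comm]
    refine Finset.sum_congr rfl fun j _ => ?_
    rw [Finset.sum_apply, Finset.mul_sum])
  rw [Finset.mem_convexHull'] at hw
  obtain ⟨l, hl0, hl1, hlw⟩ := hw
  have hch : ∀ s ∈ A, ∃ u ∈ P, ∑ i, u i = s := fun s hs => by
    obtain ⟨u, hu, e⟩ := Finset.mem_image.1 hs
    exact ⟨u, hu, e⟩
  choose! r hrP hrs using hch
  have hrU : ∀ s ∈ A, ∀ i, r s i ∈ U i := fun s hs i => Fintype.mem_piFinset.1 (hrP s hs) i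
  refine ⟨fun i v => ∑ s ∈ A, if r s i = v then l s else 0, fun _ _ => ?_, fun i => ?_,
    fun j => ?_⟩
  · refine Finset.sum_nonneg fun s hs => ?_
    split_ifs
    · exact hl0 s hs
    · exact le_rfl
  · rw [Finset.sum_comm]
    rw [← hl1]
    refine Finset.sum_congr rfl fun s hs => ?_
    rw [Finset.sum_ite_eq, if_pos (hrU s hs i)]
  · have e1 : ∀ i, ∑ u ∈ U i, (∑ s ∈ A, if r s i = u then l s else 0) * u j =
        ∑ s ∈ A, l s * r s i j := by
      intro i
      simp_rw [Finset.sum_mul]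
      rw [Finset.sum_comm]
      refine Finset.sum_congr rfl fun s hs => ?_
      simp_rw [ite_mul, zero_mul]
      rw [Finset.sum_ite_eq, if_pos (hrU s hs i)]
    have e2 : ∑ i, ∑ u ∈ U i, (∑ s ∈ A, if r s i = u then l s else 0) * u j = w j := by
      simp_rw [e1]
      rw [Finset.sum_comm, ← hlw, Finset.sum_apply]
      refine Finset.sum_congr rfl fun s hs => ?_
      rw [Pi.smul_apply, smul_eq_mul, ← Finset.mul_sum]
      congr 1
      conv_rhs => rw [← hrs s hs]
      rw [Finset.sum_apply]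
    exact le_trans (le_of_eq e2) (hwa j)

end Pool.Agent.Helper51.BN
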